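import Mathlib
import Pool.Graph.R_seed8.Helper278.HU.H4
import Pool.Graph.R_seed8.Helper436.AD.U4

set_option autoImplicit false
set_option linter.unusedSectionVars false

open scoped InnerProductSpace ComplexOrder Topology BoundedContinuousFunction
open Filter

namespace Pool.Agent.KS6_75.FU

open Pool.Agent.Helper278 Pool.Agent.Helper278.CE Pool.Agent.Helper436.SM Pool.Agent.Helper436.SN
open Pool.Agent.Helper436.AD

variable {m : ℕ}

/-- the trace of matrices as a linear functional -/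
noncomputable def mtrG (m : ℕ) {A : Type} [Ring A] [StarRing A] [Algebra ℂ A] (τ : A →ₗ[ℂ] ℂ) :
    Matrix (Fin m) (Fin m) A →ₗ[ℂ] ℂ where
  toFun x := mtr m τ x
  map_add' x y := by
    simp only [mtr, Matrix.add_apply, map_add, Finset.sum_add_distrib, add_div]
  map_smul' c x := by
    simp only [mtr, Matrix.smul_apply, map_smul, RingHom.id_apply, smul_eq_mul, ← Finset.mul_sum,
      mul_div_assoc]

/-- the entrywise application of a star homomorphism -/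
def mapG (m : ℕ) {A B : Type} [Ring A] [StarRing A] [Algebra ℂ A] [Ring B] [StarRing B]
    [Algebra ℂ B] (f : A →⋆ₐ[ℂ] B) : Matrix (Fin m) (Fin m) A →⋆ₐ[ℂ] Matrix (Fin m) (Fin m) B where
  __ := (f : A →ₐ[ℂ] B).mapMatrix
  map_star' x := by
    ext i j
    exact map_star f (x j i)

theorem mapG_apply {A B : Type} [Ring A] [StarRing A] [Algebra ℂ A] [Ring B] [StarRing B]
    [Algebra ℂ B] (f : A →⋆ₐ[ℂ] B) (x : Matrix (Fin m) (Fin m) A) (i j : Fin m) :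
    mapG m f x i j = f (x i j) := rfl

theorem mtrG_eq {A : Type} [Ring A] [StarRing A] [Algebra ℂ A]
    (τ : A →ₗ[ℂ] ℂ) (x : Matrix (Fin m) (Fin m) A) : mtrG m τ x = (∑ i, τ (x i i)) / (m : ℂ) := rfl

theorem mtrG_star_mul {A : Type} [Ring A] [StarRing A] [Algebra ℂ A]
    (τ : A →ₗ[ℂ] ℂ) (x : Matrix (Fin m) (Fin m) A) :
    mtrG m τ (star x * x) = (∑ i, ∑ k, τ (star (x k i) * x k i)) / (m : ℂ) := by
  rw [mtrG_eq]
  congr 1
  refine Finset.sum_congr rfl fun i _ => ?_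
  rw [Matrix.mul_apply, map_sum]
  rfl

theorem mtrG_trAlg [NeZero m] {A : Type} [Ring A] [StarRing A] [Algebra ℂ A] [StarModule ℂ A]
    {τ : A →ₗ[ℂ] ℂ} (h : TrAlg τ) : TrAlg (mtrG m τ) := by
  have h3 : (0 : ℂ) ≤ (m : ℂ)⁻¹ := by
    have : (m : ℂ)⁻¹ = (((m : ℝ)⁻¹ : ℝ) : ℂ) := by push_cast; rfl
    rw [this]
    exact Complex.zero_le_real.2 (by positivity)
  have hm : (m : ℂ) ≠ 0 := Nat.cast_ne_zero.2 (NeZero.ne m)
  refine ⟨?_, ?_, ?_, ?_, ?_⟩
  · rw [mtrG_eq]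
    simp [h.one]
  · intro x y
    rw [mtrG_eq, mtrG_eq]
    congr 1
    simp only [Matrix.mul_apply, map_sum]
    rw [Finset.sum_comm]
    refine Finset.sum_congr rfl fun i _ => Finset.sum_congr rfl fun k _ => ?_
    exact h.comm _ _
  · intro x
    rw [mtrG_star_mul, div_eq_mul_inv]
    exact mul_nonneg (Finset.sum_nonneg fun i _ => Finset.sum_nonneg fun k _ => h.nonneg _) h3
  · intro x
    rw [mtrG_eq, mtrG_eq, star_div₀, star_sum]
    congr 1
    · refine Finset.sum_congr rfl fun i _ => ?_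
      exact h.conj (x i i)
    · simp
  · intro x hx
    rw [mtrG_star_mul, div_eq_zero_iff] at hx
    rcases hx with hx | hx
    · rw [Finset.sum_eq_zero_iff_of_nonneg
        (fun i _ => Finset.sum_nonneg fun k _ => h.nonneg _)] at hx
      ext k i
      have h1 := hx i (Finset.mem_univ _)
      rw [Finset.sum_eq_zero_iff_of_nonneg (fun k _ => h.nonneg _)] at h1
      exact h.faithful _ (h1 k (Finset.mem_univ _))
    · exact absurd hx hm

theorem re_mtrG_star_mul {A : Type} [Ring A] [StarRing A] [Algebra ℂ A] [StarModule ℂ A]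
    {τ : A →ₗ[ℂ] ℂ} (h : TrAlg τ) (x : Matrix (Fin m) (Fin m) A) :
    (mtrG m τ (star x * x)).re = (∑ i, ∑ j, n2 τ (x i j) ^ 2) / m := by
  rw [mtrG_star_mul, Complex.div_natCast_re, Complex.re_sum]
  rw [Finset.sum_comm]
  congr 1
  refine Finset.sum_congr rfl fun i _ => ?_
  rw [Complex.re_sum]
  refine Finset.sum_congr rfl fun k _ => ?_
  rw [h.n2_sq]

theorem n2_mtrG_le [NeZero m] {A : Type} [Ring A] [StarRing A] [Algebra ℂ A] [StarModule ℂ A]
    {τ : A →ₗ[ℂ] ℂ} (h : TrAlg τ) (x : Matrix (Fin m) (Fin m) A) :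
    n2 (mtrG m τ) x ≤ ∑ i, ∑ j, n2 τ (x i j) := by
  have hnn : 0 ≤ ∑ i, ∑ j, n2 τ (x i j) :=
    Finset.sum_nonneg fun i _ => Finset.sum_nonneg fun j _ => n2_nonneg _ _
  have h1 : ∑ i, ∑ j, n2 τ (x i j) ^ 2 ≤ (∑ i, ∑ j, n2 τ (x i j)) ^ 2 := by
    calc ∑ i, ∑ j, n2 τ (x i j) ^ 2 ≤ ∑ i, (∑ j, n2 τ (x i j)) ^ 2 :=
          Finset.sum_le_sum fun i _ => Finset.sum_sq_le_sq_sum_of_nonneg fun j _ => n2_nonneg _ _
      _ ≤ _ := Finset.sum_sq_le_sq_sum_of_nonneg fun i _ => Finset.sum_nonneg fun j _ => n2_nonneg _ _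
  have h2 : 0 ≤ ∑ i, ∑ j, n2 τ (x i j) ^ 2 :=
    Finset.sum_nonneg fun i _ => Finset.sum_nonneg fun j _ => sq_nonneg _
  have hm1 : (1 : ℝ) ≤ m := by exact_mod_cast NeZero.one_le
  unfold n2 at hnn ⊢
  refine Real.sqrt_le_iff.2 ⟨hnn, ?_⟩
  rw [re_mtrG_star_mul h]
  refine le_trans ?_ h1
  exact div_le_self h2 hm1

variable {H : Type} [NormedAddCommGroup H] [InnerProductSpace ℂ H] [CompleteSpace H]
variable {N : VonNeumannAlgebra H} {T : TracialState N} {W : VV → Elt N}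
variable {Q : Type} [Ring Q] [StarRing Q] [Algebra ℂ Q] [StarModule ℂ Q]
variable {U : Ultrafilter ℕ} {π : (ℕ →ᵇ Elt N) →⋆ₐ[ℂ] Q} {σ : Q → ℂ}

theorem mtrG_tendsto (hπ : Helper278.IsTracialUltrapower T.τ U π σ)
    (X : Matrix (Fin m) (Fin m) (ℕ →ᵇ Elt N)) :
    Tendsto (fun k => mtr m T.τ (mapG m (evk N k) X)) U (𝓝 (mtr m σ (mapG m π X))) := by
  unfold mtr
  refine Tendsto.div_const ?_ _
  refine tendsto_finsetSum _ fun i _ => ?_
  exact hπ.trace (X i i)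

theorem Fm_tendstoG (hπ : Helper278.IsTracialUltrapower T.τ U π σ) {ι : Type}
    (X : ι → Matrix (Fin m) (Fin m) (ℕ →ᵇ Elt N)) (f : Fm ι) :
    Tendsto (fun k => f.ev (mtr m T.τ) (fun j => mapG m (evk N k) (X j))) U
      (𝓝 (f.ev (mtr m σ) (fun j => mapG m π (X j)))) := by
  induction f with
  | n2s t =>
    simp only [Fm.ev, Pool.Agent.Helper436.AD.n2s]
    have h1 := (Complex.continuous_re.tendsto _).comp (mtrG_tendsto hπ (star (t.ev X) * t.ev X))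
    rw [map_mul, map_star, ← Tm.ev_map_aux] at h1
    refine h1.congr fun k => ?_
    show (mtr m T.τ (mapG m (evk N k) (star (t.ev X) * t.ev X))).re = _
    rw [map_mul, map_star, ← Tm.ev_map_aux]
  | trs t =>
    simp only [Fm.ev]
    have h1 := (mtrG_tendsto hπ (t.ev X)).norm.pow 2
    rw [← Tm.ev_map_aux] at h1
    refine h1.congr fun k => ?_
    rw [← Tm.ev_map_aux]
  | op H hH f g ihf ihg =>
    simp only [Fm.ev]
    exact (hH.tendsto (f.ev (mtr m σ) (fun j => mapG m π (X j)),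
      g.ev (mtr m σ) (fun j => mapG m π (X j)))).comp (ihf.prodMk_nhds ihg)

/-- the entries of a matrix are bounded by the diagonal of `star x * x` -/
theorem entry_bd (B : Matrix (Fin m) (Fin m) (Elt N)) (C : ℝ) (hC : 0 ≤ C) (i j : Fin m)
    (hB : ‖(star B * B) j j‖ ≤ C ^ 2) : ‖B i j‖ ≤ C := by
  show ‖((B i j : Elt N) : H →L[ℂ] H)‖ ≤ C
  refine ContinuousLinearMap.opNorm_le_bound _ hC fun ξ => ?_
  have h1 : ∀ T : H →L[ℂ] H, inner ℂ ξ ((star T * T) ξ) = ((‖T ξ‖ ^ 2 : ℝ) : ℂ) := by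
    intro T
    rw [ContinuousLinearMap.mul_apply, ContinuousLinearMap.star_eq_adjoint,
      ContinuousLinearMap.adjoint_inner_right, inner_self_eq_norm_sq_to_K]
    norm_cast
  have h2 : ((((star B * B) j j : Elt N)) : H →L[ℂ] H)
      = ∑ k, star ((B k j : Elt N) : H →L[ℂ] H) * ((B k j : Elt N) : H →L[ℂ] H) := by
    rw [Matrix.mul_apply, AddSubmonoidClass.coe_finsetSum]
    rfl
  have h3 : inner ℂ ξ ((((star B * B) j j : Elt N) : H →L[ℂ] H) ξ)
      = ((∑ k, ‖((B k j : Elt N) : H →L[ℂ] H) ξ‖ ^ 2 : ℝ) : ℂ) := by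
    rw [h2, _root_.sum_apply, inner_sum, Complex.ofReal_sum]
    exact Finset.sum_congr rfl fun k _ => h1 _
  have h4 : ‖inner ℂ ξ ((((star B * B) j j : Elt N) : H →L[ℂ] H) ξ)‖ ≤ C ^ 2 * ‖ξ‖ ^ 2 := by
    refine (norm_inner_le_norm _ _).trans ?_
    have h5 : ‖(((star B * B) j j : Elt N) : H →L[ℂ] H) ξ‖ ≤ C ^ 2 * ‖ξ‖ :=
      (ContinuousLinearMap.le_opNorm _ _).trans
        (mul_le_mul_of_nonneg_right hB (norm_nonneg _))
    calc ‖ξ‖ * ‖(((star B * B) j j : Elt N) : H →L[ℂ] H) ξ‖ ≤ ‖ξ‖ * (C ^ 2 * ‖ξ‖) :=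
          mul_le_mul_of_nonneg_left h5 (norm_nonneg _)
      _ = C ^ 2 * ‖ξ‖ ^ 2 := by ring
  rw [h3, Complex.norm_real, Real.norm_eq_abs,
    abs_of_nonneg (Finset.sum_nonneg fun _ _ => sq_nonneg _)] at h4
  have h6 : ‖((B i j : Elt N) : H →L[ℂ] H) ξ‖ ^ 2 ≤ (C * ‖ξ‖) ^ 2 := by
    rw [mul_pow]
    refine le_trans ?_ h4
    exact Finset.single_le_sum (f := fun k => ‖((B k j : Elt N) : H →L[ℂ] H) ξ‖ ^ 2)
      (fun k _ => sq_nonneg _) (Finset.mem_univ i)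
  exact (pow_le_pow_iff_left₀ (norm_nonneg _) (mul_nonneg hC (norm_nonneg _)) two_ne_zero).1 h6

theorem entry_unit (V : Matrix (Fin m) (Fin m) (Elt N))
    (hV : V ∈ unitary (Matrix (Fin m) (Fin m) (Elt N))) (i j : Fin m) : ‖V i j‖ ≤ 1 := by
  apply entry_bd V 1 zero_le_one
  rw [(Unitary.mem_iff.1 hV).1, Matrix.one_apply_eq, one_pow]
  exact Mo_lift3_one

end Pool.Agent.KS6_75.FU
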