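import Mathlib
import Pool.Graph.R_seed8.Helper436.AD.T3

set_option autoImplicit false
set_option linter.unusedSectionVars false

open scoped ComplexOrder

namespace Pool.Agent.KS6_75.FU

open Pool.Agent.Helper278 Pool.Agent.Helper436.AD

/-- no power of two is close to `n` -/
def Gd (n : ℕ) : Prop :=
  ∀ l : ℕ, ¬ (98 / 100 * (n : ℝ) ≤ (2 : ℝ) ^ l ∧ (2 : ℝ) ^ l ≤ 101 / 100 * (n : ℝ))

/-- the negative side for matrix algebras whose size is not close to a power of two -/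
theorem neg_matG : ∃ η : ℝ, 0 < η ∧ ∀ (ι : Type) [Fintype ι] [DecidableEq ι] [Nonempty ι],
    Gd (Fintype.card ι) → ∀ (C : Matrix ι ι ℂ) (S : Set (Matrix ι ι ℂ)), ¬ Bad η C S := by
  refine ⟨1 / 10 ^ 24, by positivity, ?_⟩
  intro ι _ _ hne hcard C S hbad
  obtain ⟨G, _, _, _, f, hapx⟩ := exists_apx (by positivity) (by norm_num) hbad
  have hsq : Real.sqrt ((1 : ℝ) / 10 ^ 24) = 1 / 10 ^ 12 := by
    rw [show (1 : ℝ) / 10 ^ 24 = (1 / 10 ^ 12) ^ 2 by norm_num]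
    exact Real.sqrt_sq (by positivity)
  have hε0 : 0 ≤ 60 * Real.sqrt ((1 : ℝ) / 10 ^ 24) := by positivity
  have hε1 : 60 * Real.sqrt ((1 : ℝ) / 10 ^ 24) ≤ 6 / 10 ^ 11 := by
    rw [hsq]; norm_num
  obtain ⟨_, ⟨z, hz1, hz2, hz3⟩, s, hs⟩ := apx_group (by linarith) hapx
  obtain ⟨Q, hQ, hQ1, hQ2, hQd⟩ := neg_mat_key hε0 hε1 hapx
  have hn : (0 : ℝ) < Fintype.card ι := by exact_mod_cast Fintype.card_pos
  rw [le_div_iff₀ hn] at hQ1
  rw [div_le_iff₀ hn] at hQ2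
  obtain ⟨E, hE, hEQ, hE0, hEtr, hEmin⟩ := neg_mat_min hQ (Fintype.card ι : ℝ) hn
    (by linarith) (fun E h1 h2 => by
      have h3 := hQd E h1 h2
      rw [le_div_iff₀ hn, div_le_iff₀ hn] at h3
      exact h3)
  have hΓ : ∃ s' : ℕ, Fintype.card (G × G × G) = 2 ^ s' := by
    refine ⟨s + (s + s), ?_⟩
    rw [Fintype.card_prod, Fintype.card_prod, hs, pow_add, pow_add]
  have hcom : ∀ γ δ : G × G × G, ∃ z' : G × G × G, (∀ x, z' * x = x * z') ∧ z' * z' = 1 ∧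
      γ * δ = z' * (δ * γ) := by
    have h1 : ∀ g h : G, ∃ w : G, (∀ x, w * x = x * w) ∧ w * w = 1 ∧ g * h = w * (h * g) := by
      intro g h
      rcases hz3 g h with h4 | h4
      · exact ⟨1, fun x => by rw [one_mul, mul_one], by rw [one_mul], by rw [one_mul, h4]⟩
      · exact ⟨z, hz1, hz2, h4⟩
    rintro ⟨g1, g2, g3⟩ ⟨h1', h2', h3'⟩
    obtain ⟨w1, a1, b1, c1⟩ := h1 g1 h1'
    obtain ⟨w2, a2, b2, c2⟩ := h1 g2 h2'
    obtain ⟨w3, a3, b3, c3⟩ := h1 g3 h3'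
    refine ⟨(w1, w2, w3), ?_, ?_, ?_⟩
    · rintro ⟨x1, x2, x3⟩
      simp only [Prod.mk_mul_mk, a1, a2, a3]
    · simp only [Prod.mk_mul_mk, b1, b2, b3]
      rfl
    · simp only [Prod.mk_mul_mk, ← c1, ← c2, ← c3]
  obtain ⟨l, hl⟩ := irr_dim hΓ hcom hE hE0 hEmin
  -- upper bound of the trace
  have hEupper : (Matrix.trace E).re ≤ (Matrix.trace Q).re := by
    have hQE : Q * E = E := by
      have h1 := congrArg Matrix.conjTranspose hEQ
      rw [Matrix.conjTranspose_mul, hE.herm, hQ.herm] at h1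
      exact h1
    have h2 : (Q - E) * (Q - E) = Q - E := by
      rw [sub_mul, mul_sub, mul_sub, hQ.idem, hQE, hEQ, hE.idem]
      abel
    have h3 : (Q - E).conjTranspose = Q - E := by
      rw [Matrix.conjTranspose_sub, hE.herm, hQ.herm]
    obtain ⟨d, hd, _⟩ := trace_nat h2 h3
    rw [Matrix.trace_sub] at hd
    have h4 := congrArg Complex.re hd
    rw [Complex.sub_re, Complex.natCast_re] at h4
    have h5 : (0 : ℝ) ≤ d := Nat.cast_nonneg d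
    linarith
  have hl' : (Matrix.trace E).re = (2 : ℝ) ^ l := by
    rw [hl]
    norm_cast
  rw [hl'] at hEtr hEupper
  exact hcard l ⟨hEtr, hEupper.trans hQ2⟩

/-- the sentence fails in matrix algebras whose size is not close to a power of two -/
theorem neg_FFG : ∃ c : ℝ, 0 < c ∧ ∀ (ι : Type) [Fintype ι] [DecidableEq ι] [Nonempty ι],
    Gd (Fintype.card ι) → ∀ p : Fin 13 → Matrix ι ι ℂ, UU Set.univ p →
      ∃ w : Fin 6 → Matrix ι ι ℂ, UU Set.univ w ∧ ∀ z : Fin 2 → Matrix ι ι ℂ, UU Set.univ z →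
        c ≤ FF (10 ^ 8) nt p w z := by
  obtain ⟨η0, hη0, hneg⟩ := neg_matG
  set η := min η0 (1 / 4) with hη
  have hηpos : 0 < η := lt_min hη0 (by norm_num)
  have hη4 : η ≤ 1 / 4 := min_le_right _ _
  set δ := η / (4 * 10 ^ 8) with hδ
  have hδpos : 0 < δ := by positivity
  have hKδ : (10 : ℝ) ^ 8 * (δ + δ) = η / 2 := by rw [hδ]; ring
  have hδη : δ ≤ η / 2 := by rw [hδ]; linarith [hηpos]
  refine ⟨δ, hδpos, ?_⟩
  intro ι _ _ _ hcard p hp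
  by_contra hcon
  push Not at hcon
  refine hneg ι hcard (p 12) {x | x ∈ unitary (Matrix ι ι ℂ) ∧ dd nt p x ≤ δ} ?_
  refine t3_bad_mono (min_le_left η0 (1 / 4)) ?_
  -- consequences of `FF < δ`
  have key : ∀ (w : Fin 6 → Matrix ι ι ℂ) (z : Fin 2 → Matrix ι ι ℂ), FF (10 ^ 8) nt p w z < δ →
      min (n2s nt (w 0 - w 1)) (pos (1 - n2s nt (w 0 - w 1))) ≤
        10 ^ 8 * (dd nt p (w 0) + dd nt p (w 1)) + δ ∧
      dd nt p (z 0) ≤ δ ∧
      n2s nt (w 0 * w 1 - z 0) ≤ 10 ^ 8 * (dd nt p (w 0) + dd nt p (w 1)) + δ ∧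
      min (n2s nt (w 0 * w 1 - w 1 * w 0)) (n2s nt (w 0 * w 1 + w 1 * w 0)) ≤
        10 ^ 8 * (dd nt p (w 0) + dd nt p (w 1)) + δ ∧
      n2s nt (cmt (w 0) (cj1 p (w 1))) ≤ 10 ^ 8 * (dd nt p (w 0) + dd nt p (w 1)) + δ ∧
      n2s nt (cmt (w 0) (cj2 p (w 1))) ≤ 10 ^ 8 * (dd nt p (w 0) + dd nt p (w 1)) + δ ∧
      dd nt p (z 1) ≤ δ ∧
      vr nt (s4 w) ≤ 5 * (n2s nt (cmt (z 1) (s4 w)) + n2s nt (cmt (cj1 p (z 1)) (s4 w)) +
        n2s nt (cmt (cj2 p (z 1)) (s4 w))) + δ := by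
    intro w z hF
    unfold FF at hF
    set P := (10 : ℝ) ^ 8 * (dd nt p (w 0) + dd nt p (w 1)) with hP
    have a1 := t3_pos (min (n2s nt (w 0 - w 1)) (pos (1 - n2s nt (w 0 - w 1))) - P)
    have a1' := t3_le_pos (min (n2s nt (w 0 - w 1)) (pos (1 - n2s nt (w 0 - w 1))) - P)
    have a2 := t3_dd_nonneg p (z 0)
    have a3 := t3_pos (n2s nt (w 0 * w 1 - z 0) - P)
    have a3' := t3_le_pos (n2s nt (w 0 * w 1 - z 0) - P)
    have a4 := t3_pos (min (n2s nt (w 0 * w 1 - w 1 * w 0)) (n2s nt (w 0 * w 1 + w 1 * w 0)) - P)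
    have a4' := t3_le_pos (min (n2s nt (w 0 * w 1 - w 1 * w 0)) (n2s nt (w 0 * w 1 + w 1 * w 0)) - P)
    have a5 := t3_pos (n2s nt (cmt (w 0) (cj1 p (w 1))) - P)
    have a5' := t3_le_pos (n2s nt (cmt (w 0) (cj1 p (w 1))) - P)
    have a6 := t3_pos (n2s nt (cmt (w 0) (cj2 p (w 1))) - P)
    have a6' := t3_le_pos (n2s nt (cmt (w 0) (cj2 p (w 1))) - P)
    have a7 := t3_dd_nonneg p (z 1)
    have a8 := t3_pos (vr nt (s4 w) - 5 * (n2s nt (cmt (z 1) (s4 w)) +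
      n2s nt (cmt (cj1 p (z 1)) (s4 w)) + n2s nt (cmt (cj2 p (z 1)) (s4 w))))
    have a8' := t3_le_pos (vr nt (s4 w) - 5 * (n2s nt (cmt (z 1) (s4 w)) +
      n2s nt (cmt (cj1 p (z 1)) (s4 w)) + n2s nt (cmt (cj2 p (z 1)) (s4 w))))
    refine ⟨?_, ?_, ?_, ?_, ?_, ?_, ?_, ?_⟩ <;> linarith
  have hone : (1 : Matrix ι ι ℂ) ∈ unitary (Matrix ι ι ℂ) := one_mem _
  -- pairs of elements of S
  have pairs : ∀ x y : Matrix ι ι ℂ, x ∈ unitary (Matrix ι ι ℂ) → dd nt p x ≤ δ →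
      y ∈ unitary (Matrix ι ι ℂ) → dd nt p y ≤ δ →
      min (n2s nt (x - y)) (pos (1 - n2s nt (x - y))) ≤ η ∧
      (∃ z ∈ {x | x ∈ unitary (Matrix ι ι ℂ) ∧ dd nt p x ≤ δ}, n2s nt (x * y - z) ≤ η) ∧
      min (n2s nt (x * y - y * x)) (n2s nt (x * y + y * x)) ≤ η ∧
      n2s nt (cmt x (cj1 p y)) ≤ η ∧ n2s nt (cmt x (cj2 p y)) ≤ η := by
    intro x y hx hdx hy hdy
    have hU : UU Set.univ (![x, y, 1, 1, 1, 1] : Fin 6 → Matrix ι ι ℂ) := by
      intro i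
      refine ⟨?_, Set.mem_univ _⟩
      fin_cases i
      · exact hx
      · exact hy
      · exact hone
      · exact hone
      · exact hone
      · exact hone
    obtain ⟨z, hz, hF⟩ := hcon _ hU
    obtain ⟨k1, k2, k3, k4, k5, k6, -, -⟩ := key _ _ hF
    have e0 : (![x, y, 1, 1, 1, 1] : Fin 6 → Matrix ι ι ℂ) 0 = x := rfl
    have e1 : (![x, y, 1, 1, 1, 1] : Fin 6 → Matrix ι ι ℂ) 1 = y := rfl
    rw [e0, e1] at k1 k3 k4 k5 k6
    have hb : (10 : ℝ) ^ 8 * (dd nt p x + dd nt p y) + δ ≤ η := by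
      have : (10 : ℝ) ^ 8 * (dd nt p x + dd nt p y) ≤ 10 ^ 8 * (δ + δ) :=
        mul_le_mul_of_nonneg_left (add_le_add hdx hdy) (by positivity)
      linarith
    exact ⟨k1.trans hb, ⟨z 0, ⟨(hz 0).1, k2⟩, k3.trans hb⟩, k4.trans hb, k5.trans hb, k6.trans hb⟩
  refine ⟨(hp 12).1, fun x hx => hx.1, ?_, ?_, ?_, ?_, ?_, ?_, ?_, ?_⟩
  · intro x hx y hy
    have h1 := (pairs x y hx.1 hx.2 hy.1 hy.2).1
    rw [t3_n2s] at h1
    rcases min_le_iff.mp h1 with h | h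
    · exact Or.inl h
    · right
      have := t3_le_pos (1 - ms (x - y))
      linarith
  · intro x hx y hy
    obtain ⟨z, hz, hz2⟩ := (pairs x y hx.1 hx.2 hy.1 hy.2).2.1
    rw [t3_n2s] at hz2
    exact ⟨z, hz, hz2⟩
  · intro x hx y hy
    have h1 := (pairs x y hx.1 hx.2 hy.1 hy.2).2.2.1
    rw [t3_n2s, t3_n2s] at h1
    exact min_le_iff.mp h1
  · intro x hx y hy
    have h1 := (pairs x y hx.1 hx.2 hy.1 hy.2).2.2.2.1
    rw [t3_n2s] at h1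
    exact h1
  · intro x hx y hy
    have h1 := (pairs x y hx.1 hx.2 hy.1 hy.2).2.2.2.2
    rw [t3_n2s] at h1
    exact h1
  · refine ⟨t3_I_unitary, ?_⟩
    rw [t3_dd_I p (hp 11).1]
    exact hδpos.le
  · intro x hx
    have h1 := t3_dd_four p x
    rw [t3_n2s] at h1
    have := hx.2
    linarith
  · intro u hu
    have hU : UU Set.univ (![Complex.I • (1 : Matrix ι ι ℂ), Complex.I • (1 : Matrix ι ι ℂ),
        u 0, u 1, u 2, u 3] : Fin 6 → Matrix ι ι ℂ) := by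
      intro i
      refine ⟨?_, Set.mem_univ _⟩
      fin_cases i
      · exact t3_I_unitary
      · exact t3_I_unitary
      · exact hu 0
      · exact hu 1
      · exact hu 2
      · exact hu 3
    obtain ⟨z, hz, hF⟩ := hcon _ hU
    obtain ⟨-, -, -, -, -, -, k7, k8⟩ := key _ _ hF
    refine ⟨z 1, ⟨(hz 1).1, k7⟩, ?_⟩
    have es : s4 (![Complex.I • (1 : Matrix ι ι ℂ), Complex.I • (1 : Matrix ι ι ℂ),
        u 0, u 1, u 2, u 3] : Fin 6 → Matrix ι ι ℂ) = ∑ i, u i := by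
      rw [Fin.sum_univ_four]; rfl
    rw [es] at k8
    unfold vr at k8
    simp only [t3_n2s] at k8
    unfold nt cmt cj1 cj2 at k8
    linarith

end Pool.Agent.KS6_75.FU
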