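import Mathlib
import Pool.Agent.KS6_75.FU.F1
import Pool.Graph.R_seed8.Helper436.AD.T5

set_option autoImplicit false
set_option linter.unusedSectionVars false

namespace Pool.Agent.KS6_75.FU

open Pool.Agent.Helper278 Pool.Agent.Helper278.CE Pool.Agent.Helper436.SM Pool.Agent.Helper436.SN
open Pool.Agent.Helper436.AD

/-- matrices with entries in `B` -/
def MG (m : ℕ) {A : Type} (B : Set A) : Set (Matrix (Fin m) (Fin m) A) := {y | ∀ i j, y i j ∈ B}

variable {m : ℕ}

/-- block of a matrix -/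
def blkG {J : Type} (x : Matrix (Fin m × J) (Fin m × J) ℂ) (i j : Fin m) : Matrix J J ℂ :=
  Matrix.of fun s t => x (i, s) (j, t)

theorem blkG_apply {J : Type} (x : Matrix (Fin m × J) (Fin m × J) ℂ) (i j : Fin m) (s t : J) :
    blkG x i j s t = x (i, s) (j, t) := rfl

theorem blkG_mul {J : Type} [Fintype J] (x y : Matrix (Fin m × J) (Fin m × J) ℂ) (i j : Fin m) :
    blkG (x * y) i j = ∑ k, blkG x i k * blkG y k j := by
  ext s t
  rw [blkG_apply, Matrix.mul_apply, Matrix.sum_apply, Fintype.sum_prod_type]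
  apply Finset.sum_congr rfl
  intro k _
  rw [Matrix.mul_apply]
  rfl

theorem blkG_alg {J : Type} [Fintype J] [DecidableEq J] (r : ℂ) (i j : Fin m) :
    blkG (algebraMap ℂ (Matrix (Fin m × J) (Fin m × J) ℂ) r) i j =
      if i = j then algebraMap ℂ (Matrix J J ℂ) r else 0 := by
  ext s t
  rw [blkG_apply, Matrix.algebraMap_matrix_apply]
  by_cases hij : i = j
  · subst hij
    rw [if_pos rfl, Matrix.algebraMap_matrix_apply]
    simp
  · rw [if_neg hij]
    simp [hij]

/-- matrices of matrices -/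
noncomputable def psiG {A : Type} [Ring A] [StarRing A] [Algebra ℂ A] [StarModule ℂ A]
    {J : Type} [Fintype J] [DecidableEq J] (Φ : Matrix J J ℂ →⋆ₐ[ℂ] A) :
    Matrix (Fin m × J) (Fin m × J) ℂ →⋆ₐ[ℂ] Matrix (Fin m) (Fin m) A where
  toFun x := Matrix.of fun i j => Φ (blkG x i j)
  map_one' := by
    ext i j
    have h := blkG_alg (J := J) 1 i j
    rw [map_one, map_one] at h
    rw [Matrix.of_apply, h, Matrix.one_apply]
    split_ifs
    · exact map_one Φ
    · exact map_zero Φ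
  map_mul' x y := by
    ext i j
    rw [Matrix.of_apply, Matrix.mul_apply, blkG_mul, map_sum]
    apply Finset.sum_congr rfl
    intro k _
    rw [map_mul]
    rfl
  map_zero' := by
    ext i j
    rw [Matrix.of_apply, Matrix.zero_apply, ← map_zero Φ]
    rfl
  map_add' x y := by
    ext i j
    rw [Matrix.of_apply, Matrix.add_apply, Matrix.of_apply, Matrix.of_apply, ← map_add]
    rfl
  commutes' r := by
    ext i j
    rw [Matrix.of_apply, blkG_alg, Matrix.algebraMap_matrix_apply]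
    split_ifs
    · exact AlgHomClass.commutes Φ r
    · exact map_zero Φ
  map_star' x := by
    ext i j
    rw [Matrix.of_apply, Matrix.star_apply, Matrix.of_apply, ← map_star]
    rfl

theorem psiG_apply {A : Type} [Ring A] [StarRing A] [Algebra ℂ A] [StarModule ℂ A]
    {J : Type} [Fintype J] [DecidableEq J] (Φ : Matrix J J ℂ →⋆ₐ[ℂ] A)
    (x : Matrix (Fin m × J) (Fin m × J) ℂ) (i j : Fin m) :
    psiG Φ x i j = Φ (blkG x i j) := rfl

theorem exists_modelG {A : Type} [Ring A] [StarRing A] [Algebra ℂ A] [StarModule ℂ A]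
    {τ : A →ₗ[ℂ] ℂ} {W : VV → A} (h : PW τ W) (n : ℕ) :
    ∃ Ψ : Matrix (Fin m × (Fin n → ZMod 2)) (Fin m × (Fin n → ZMod 2)) ℂ →⋆ₐ[ℂ]
        Matrix (Fin m) (Fin m) A,
      (∀ x, mtr m τ (Ψ x) = nt x) ∧ Set.range Ψ = MG m (SP W (lab 0 n) : Set A) := by
  obtain ⟨Φ, hΦ, hr⟩ := exists_model h n
  refine ⟨psiG Φ, ?_, ?_⟩
  · intro x
    unfold mtr
    have h1 : ∀ i, τ (psiG Φ x i i) = (∑ s, x (i, s) (i, s)) / Fintype.card (Fin n → ZMod 2) := by
      intro i
      rw [psiG_apply, hΦ]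
      rfl
    simp only [h1]
    rw [← Finset.sum_div]
    unfold nt
    rw [Matrix.trace, Fintype.sum_prod_type, div_div, Fintype.card_prod, Fintype.card_fin]
    simp only [Matrix.diag_apply]
    push_cast
    rw [mul_comm (m : ℂ)]
  · ext y
    constructor
    · rintro ⟨x, rfl⟩ i j
      rw [psiG_apply, ← hr]
      exact ⟨_, rfl⟩
    · intro hy
      have h1 : ∀ i j, ∃ z, Φ z = y i j := by
        intro i j
        have h2 : y i j ∈ Set.range Φ := by
          rw [hr]
          exact hy i j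
        exact h2
      choose z hz using h1
      refine ⟨Matrix.of fun a b => z a.1 b.1 a.2 b.2, ?_⟩
      ext i j
      rw [psiG_apply, ← hz i j]
      rfl

theorem neg_sideG : ∃ c : ℝ, 0 < c ∧ ∀ (A : Type) [Ring A] [StarRing A] [Algebra ℂ A]
    [StarModule ℂ A] (τ : A →ₗ[ℂ] ℂ) (W : VV → A), PW τ W → ∀ (n : ℕ)
    (m : ℕ) [NeZero m] (_ : ∀ j : ℕ, Gd (m * 2 ^ j)) (p : Fin 13 → Matrix (Fin m) (Fin m) A), UU (MG m (SP W (lab 0 n) : Set A)) p →
      ∃ w : Fin 6 → Matrix (Fin m) (Fin m) A, UU (MG m (SP W (lab 0 n) : Set A)) w ∧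
        ∀ z : Fin 2 → Matrix (Fin m) (Fin m) A, UU (MG m (SP W (lab 0 n) : Set A)) z →
          c ≤ FF (10 ^ 8) (mtr m τ) p w z := by
  obtain ⟨c, hc, hneg⟩ := neg_FFG
  refine ⟨c, hc, ?_⟩
  intro A _ _ _ _ τ W h n m _ hgd p hp
  obtain ⟨Ψ, hΨ, hr⟩ := exists_modelG (m := m) h n
  have hinj : Function.Injective Ψ := by
    rw [injective_iff_map_eq_zero]
    intro x hx
    apply nt_faithful
    rw [← hΨ, map_mul, hx, mul_zero]
    unfold mtr
    simp
  -- unitaries in the range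
  have hpre : ∀ {m' : ℕ} (q : Fin m' → Matrix (Fin m) (Fin m) A),
      UU (MG m (SP W (lab 0 n) : Set A)) q →
      ∃ q' : Fin m' → Matrix (Fin m × (Fin n → ZMod 2)) (Fin m × (Fin n → ZMod 2)) ℂ,
        UU Set.univ q' ∧ ∀ i, Ψ (q' i) = q i := by
    intro m' q hq
    have h1 : ∀ i, ∃ x, Ψ x = q i := by
      intro i
      have h2 : q i ∈ Set.range Ψ := by
        rw [hr]
        exact (hq i).2
      exact h2
    choose q' hq' using h1
    refine ⟨q', fun i => ⟨?_, trivial⟩, hq'⟩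
    have hu := (hq i).1
    rw [Unitary.mem_iff] at hu ⊢
    constructor
    · apply hinj
      rw [map_mul, map_star, map_one, hq']
      exact hu.1
    · apply hinj
      rw [map_mul, map_star, map_one, hq']
      exact hu.2
  obtain ⟨p', hp', hpp⟩ := hpre p hp
  obtain ⟨w', hw', hw2⟩ := hneg (Fin m × (Fin n → ZMod 2)) (by
    rw [Fintype.card_prod, Fintype.card_fin, Fintype.card_fun, ZMod.card, Fintype.card_fin]
    exact hgd n) p' hp'
  refine ⟨fun i => Ψ (w' i), ?_, ?_⟩
  · intro i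
    constructor
    · have hu := (hw' i).1
      rw [Unitary.mem_iff] at hu ⊢
      constructor
      · rw [← map_star, ← map_mul, hu.1, map_one]
      · rw [← map_star, ← map_mul, hu.2, map_one]
    · rw [← hr]
      exact ⟨_, rfl⟩
  · intro z hz
    obtain ⟨z', hz', hzz⟩ := hpre z hz
    have h3 := hw2 z' hz'
    have h4 := Fm.ev_map Ψ (φ := nt) (ψ := mtr m τ) hΨ (asg p' w' z') (fFF (10 ^ 8))
    rw [fFF_ev] at h4
    have h5 : (fun j => Ψ (asg p' w' z' j)) = asg p (fun i => Ψ (w' i)) z := by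
      funext j
      rcases j with j | j | j
      · exact hpp j
      · rfl
      · exact hzz j
    rw [h5, fFF_ev] at h4
    rw [h4]
    exact h3

theorem MG_polar {A : Type} [Ring A] [StarRing A] [Algebra ℂ A] [StarModule ℂ A]
    {τ : A →ₗ[ℂ] ℂ} {W : VV → A} (h : PW τ W) (n : ℕ) {x : Matrix (Fin m) (Fin m) A}
    (hx : x ∈ MG m (SP W (lab 0 n) : Set A)) :
    ∃ v ∈ unitary (Matrix (Fin m) (Fin m) A), v ∈ MG m (SP W (lab 0 n) : Set A) ∧
      ∃ b ∈ MG m (SP W (lab 0 n) : Set A), x = v * (star b * b) := by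
  obtain ⟨Ψ, hΨ, hr⟩ := exists_modelG (m := m) h n
  have hx' : x ∈ Set.range Ψ := by
    rw [hr]
    exact hx
  obtain ⟨v, hv, hv2, b, hb, hxb⟩ := unit_polar Ψ hx' matrix_polar
  rw [hr] at hv2 hb
  exact ⟨v, hv, hv2, b, hb, hxb⟩

end Pool.Agent.KS6_75.FU
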