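import Mathlib
import Pool.Agent.KS6_75.FU.F0
import Pool.Agent.KS6_75.FU.F2

set_option autoImplicit false
set_option linter.unusedSectionVars false

open scoped Topology BoundedContinuousFunction
open Filter

namespace Pool.Agent.KS6_75.FU

open Pool.Agent.Helper278 Pool.Agent.Helper278.CE Pool.Agent.Helper436.SM Pool.Agent.Helper436.SN
open Pool.Agent.Helper436.AD

variable {m : ℕ}
variable {H : Type} [NormedAddCommGroup H] [InnerProductSpace ℂ H] [CompleteSpace H]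
variable {N : VonNeumannAlgebra H} {T : TracialState N} {W : VV → Elt N}
variable {Q : Type} [Ring Q] [StarRing Q] [Algebra ℂ Q] [StarModule ℂ Q]
variable {U : Ultrafilter ℕ} {π : (ℕ →ᵇ Elt N) →⋆ₐ[ℂ] Q} {σ : Q → ℂ}

theorem mat_seq_ext {x y : Matrix (Fin m) (Fin m) (ℕ →ᵇ Elt N)}
    (hxy : ∀ k, mapG m (evk N k) x = mapG m (evk N k) y) : x = y := by
  ext a b : 1
  refine BoundedContinuousFunction.ext fun k => ?_
  exact congrFun (congrFun (hxy k) a) b

/-- a bounded family of matrices -/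
noncomputable def mkG (V : ℕ → Matrix (Fin m) (Fin m) (Elt N)) (C : ℝ)
    (h : ∀ i j k, ‖V k i j‖ ≤ C) : Matrix (Fin m) (Fin m) (ℕ →ᵇ Elt N) :=
  Matrix.of fun i j => BoundedContinuousFunction.ofNormedAddCommGroupDiscrete (fun k => V k i j) C
    (fun k => h i j k)

theorem mkG_ev (V : ℕ → Matrix (Fin m) (Fin m) (Elt N)) (C : ℝ)
    (h : ∀ i j k, ‖V k i j‖ ≤ C) (k : ℕ) : mapG m (evk N k) (mkG V C h) = V k := by
  ext a b
  rfl

theorem mat_seq_unitary {X : Matrix (Fin m) (Fin m) (ℕ →ᵇ Elt N)}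
    (h : ∀ k, mapG m (evk N k) X ∈ unitary (Matrix (Fin m) (Fin m) (Elt N))) :
    X ∈ unitary (Matrix (Fin m) (Fin m) (ℕ →ᵇ Elt N)) := by
  refine Unitary.mem_iff.2 ⟨mat_seq_ext fun k => ?_, mat_seq_ext fun k => ?_⟩
  · rw [map_mul, map_star, map_one, (Unitary.mem_iff.1 (h k)).1]
  · rw [map_mul, map_star, map_one, (Unitary.mem_iff.1 (h k)).2]

/-- lift of the entries -/
theorem Mo_entries (h : PW T.τ W) (q : Matrix (Fin m) (Fin m) (Mo h π)) :
    ∃ X : Matrix (Fin m) (Fin m) (ℕ →ᵇ Elt N), (∀ i j, X i j ∈ lev h) ∧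
      mapG m π X = mapG m (Mo h π).subtype q := by
  have hX0 : ∀ i j, ∃ x ∈ lev h, π x = (q i j : Q) := fun i j => mem_Mo.1 (q i j).2
  choose X hX hXq using hX0
  refine ⟨Matrix.of X, hX, ?_⟩
  ext i j
  exact hXq i j

theorem lev_ev {h : PW T.τ W} {X : Matrix (Fin m) (Fin m) (ℕ →ᵇ Elt N)}
    (hX : ∀ i j, X i j ∈ lev h) (k : ℕ) :
    mapG m (evk N k) X ∈ MG m (SP W (lab 0 (3 * (k + 1))) : Set (Elt N)) :=
  fun i j => hX i j k

theorem Mo_liftG [NeZero m] (h : PW T.τ W) (hπ : Helper278.IsTracialUltrapower T.τ U π σ)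
    (q : Matrix (Fin m) (Fin m) (Mo h π)) (hq : q ∈ unitary (Matrix (Fin m) (Fin m) (Mo h π))) :
    ∃ X : Matrix (Fin m) (Fin m) (ℕ →ᵇ Elt N), (∀ i j, X i j ∈ lev h) ∧
      (∀ k, mapG m (evk N k) X ∈ unitary (Matrix (Fin m) (Fin m) (Elt N))) ∧
      mapG m π X = mapG m (Mo h π).subtype q := by
  obtain ⟨X, hX, hXq⟩ := Mo_entries h q
  have hpol : ∀ k : ℕ, ∃ v ∈ unitary (Matrix (Fin m) (Fin m) (Elt N)),
      v ∈ MG m (SP W (lab 0 (3 * (k + 1))) : Set (Elt N)) ∧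
      ∃ b ∈ MG m (SP W (lab 0 (3 * (k + 1))) : Set (Elt N)),
        mapG m (evk N k) X = v * (star b * b) :=
    fun k => MG_polar h (3 * (k + 1)) (lev_ev hX k)
  choose V hV hVm B hB hXV using hpol
  have hVn : ∀ i j k, ‖V k i j‖ ≤ 1 := fun i j k => entry_unit (V k) (hV k) i j
  have hT := trAlg T
  have hS := sigma_trAlg hπ
  refine ⟨mkG V 1 hVn, fun i j k => hVm k i j, fun k => by rw [mkG_ev]; exact hV k, ?_⟩
  rw [← hXq]
  set D := mkG V 1 hVn - X with hD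
  have hDk : ∀ k, n2 (mtrG m T.τ) (mapG m (evk N k) D) ≤
      n2 (mtrG m T.τ) (mapG m (evk N k) (star X * X - 1)) := by
    intro k
    rw [hD, map_sub, mkG_ev, map_sub, map_mul, map_star, map_one]
    rw [(mtrG_trAlg hT).n2_sub_comm]
    exact Mo_lift3_ineq (mtrG_trAlg hT) (hV k) (hXV k)
  have hlim : ∀ Y : Matrix (Fin m) (Fin m) (ℕ →ᵇ Elt N),
      Tendsto (fun k => n2 (mtrG m T.τ) (mapG m (evk N k) Y)) U
        (𝓝 (n2 (mtrG m (sigmaL hπ)) (mapG m π Y))) := by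
    intro Y
    unfold n2
    have h1 := (Complex.continuous_re.tendsto _).comp (mtrG_tendsto hπ (star Y * Y))
    have h2 := (Real.continuous_sqrt.tendsto _).comp h1
    refine Filter.Tendsto.congr (fun k => ?_) (h2.trans (le_of_eq ?_))
    · show Real.sqrt (mtr m T.τ (mapG m (evk N k) (star Y * Y))).re = _
      rw [map_mul, map_star]
      rfl
    · rw [map_mul, map_star]
      rfl
  have h0 : mapG m π (star X * X - 1) = 0 := by
    rw [map_sub, map_mul, map_star, map_one, hXq, ← map_star, ← map_mul,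
      (Unitary.mem_iff.1 hq).1, map_one, sub_self]
  have h1 := le_of_tendsto_of_tendsto' (hlim D) (hlim (star X * X - 1)) hDk
  rw [h0, (mtrG_trAlg hS).n2_zero] at h1
  have h2 : n2 (mtrG m (sigmaL hπ)) (mapG m π D) = 0 := le_antisymm h1 (n2_nonneg _ _)
  have h3 : mapG m π D = 0 := by
    apply (mtrG_trAlg hS).faithful
    refine Complex.ext ?_ ((mtrG_trAlg hS).im_zero _)
    rw [← (mtrG_trAlg hS).n2_sq, h2]
    simp
  rw [hD, map_sub, sub_eq_zero] at h3
  exact h3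

theorem Mo_polarG [NeZero m] (h : PW T.τ W) (hπ : Helper278.IsTracialUltrapower T.τ U π σ)
    (x : Matrix (Fin m) (Fin m) (Mo h π)) :
    ∃ v ∈ unitary (Matrix (Fin m) (Fin m) (Mo h π)),
      ∃ b : Matrix (Fin m) (Fin m) (Mo h π), x = v * (star b * b) := by
  obtain ⟨X, hX, hXq⟩ := Mo_entries h x
  have hpol : ∀ k : ℕ, ∃ v ∈ unitary (Matrix (Fin m) (Fin m) (Elt N)),
      v ∈ MG m (SP W (lab 0 (3 * (k + 1))) : Set (Elt N)) ∧
      ∃ b ∈ MG m (SP W (lab 0 (3 * (k + 1))) : Set (Elt N)),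
        mapG m (evk N k) X = v * (star b * b) :=
    fun k => MG_polar h (3 * (k + 1)) (lev_ev hX k)
  choose V hV hVm B hB hXV using hpol
  have hVn : ∀ i j k, ‖V k i j‖ ≤ 1 := fun i j k => entry_unit (V k) (hV k) i j
  obtain ⟨C, hC1, hC⟩ : ∃ C : ℝ, 1 ≤ C ∧ ∀ j, ∑ l, ‖X l j‖ ≤ C := by
    refine ⟨1 + ∑ j, ∑ l, ‖X l j‖, ?_, fun j => ?_⟩
    · have : 0 ≤ ∑ j, ∑ l, ‖X l j‖ :=
        Finset.sum_nonneg fun j _ => Finset.sum_nonneg fun l _ => norm_nonneg _
      linarith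
    · have := Finset.single_le_sum (f := fun j => ∑ l, ‖X l j‖)
        (fun j _ => Finset.sum_nonneg fun l _ => norm_nonneg _) (Finset.mem_univ j)
      linarith
  have hBn : ∀ i j k, ‖B k i j‖ ≤ C := by
    intro i j k
    apply entry_bd (B k) C (by linarith)
    have h1 : star (B k) * B k = star (V k) * mapG m (evk N k) X := by
      rw [hXV k, ← mul_assoc, (Unitary.mem_iff.1 (hV k)).1, one_mul]
    rw [h1, Matrix.mul_apply]
    have h2 : ∀ l : Fin m, ‖(star (V k)) j l * (mapG m (evk N k) X) l j‖ ≤ ‖X l j‖ := by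
      intro l
      refine (norm_mul_le _ _).trans ?_
      have h3 : ‖(star (V k)) j l‖ ≤ 1 := by
        rw [Matrix.star_apply, norm_star]; exact hVn l j k
      have h4 : ‖(mapG m (evk N k) X) l j‖ ≤ ‖X l j‖ :=
        BoundedContinuousFunction.norm_coe_le_norm (X l j) k
      calc _ ≤ 1 * ‖X l j‖ := mul_le_mul h3 h4 (norm_nonneg _) zero_le_one
        _ = ‖X l j‖ := one_mul _
    calc _ ≤ ∑ l, ‖(star (V k)) j l * (mapG m (evk N k) X) l j‖ := norm_sum_le _ _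
      _ ≤ ∑ l, ‖X l j‖ := Finset.sum_le_sum fun l _ => h2 l
      _ ≤ C := hC j
      _ ≤ C ^ 2 := by nlinarith
  let v' := mkG V 1 hVn
  let b' := mkG B C hBn
  have hv' : v' ∈ unitary (Matrix (Fin m) (Fin m) (ℕ →ᵇ Elt N)) :=
    mat_seq_unitary fun k => by rw [mkG_ev]; exact hV k
  have hXvb : X = v' * (star b' * b') := by
    apply mat_seq_ext
    intro k
    rw [map_mul, map_mul, map_star, mkG_ev, mkG_ev, hXV]
  let v : Matrix (Fin m) (Fin m) (Mo h π) := Matrix.of fun i j =>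
    ⟨π (v' i j), mem_Mo.2 ⟨v' i j, fun k => hVm k i j, rfl⟩⟩
  let b : Matrix (Fin m) (Fin m) (Mo h π) := Matrix.of fun i j =>
    ⟨π (b' i j), mem_Mo.2 ⟨b' i j, fun k => hB k i j, rfl⟩⟩
  have hι : Function.Injective (mapG m (Mo h π).subtype) := by
    intro x y hxy
    ext a b
    exact congrFun (congrFun hxy a) b
  have e1 : mapG m (Mo h π).subtype v = mapG m π v' := by
    ext i j
    rfl
  have e2 : mapG m (Mo h π).subtype b = mapG m π b' := by
    ext i j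
    rfl
  refine ⟨v, ?_, b, ?_⟩
  · refine Unitary.mem_iff.2 ⟨hι ?_, hι ?_⟩
    · rw [map_mul, map_star, map_one, e1, ← map_star, ← map_mul,
        (Unitary.mem_iff.1 hv').1, map_one]
    · rw [map_mul, map_star, map_one, e1, ← map_star, ← map_mul,
        (Unitary.mem_iff.1 hv').2, map_one]
  · apply hι
    rw [map_mul, map_mul, map_star, e1, e2, ← hXq, hXvb, map_mul, map_mul, map_star]

theorem Mo_unsatG (h : PW T.τ W) (hπ : Helper278.IsTracialUltrapower T.τ U π σ) :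
    ∃ c : ℝ, 0 < c ∧ ∀ (m : ℕ) [NeZero m] (_ : ∀ j : ℕ, Gd (m * 2 ^ j))
      (p : Fin 13 → Matrix (Fin m) (Fin m) (Mo h π)), UU Set.univ p →
      ∃ w : Fin 6 → Matrix (Fin m) (Fin m) (Mo h π), UU Set.univ w ∧
        ∀ z : Fin 2 → Matrix (Fin m) (Fin m) (Mo h π), UU Set.univ z →
          c ≤ FF (10 ^ 8) (mtr m (phiM h hπ)) p w z := by
  classical
  obtain ⟨c, hc, hneg⟩ := neg_sideG
  refine ⟨c, hc, fun m _ hgd p hp => ?_⟩
  choose P hP1 hP2 hP3 using fun i => Mo_liftG h hπ (p i) (hp i).1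
  have hn := fun k : ℕ => hneg (Elt N) T.τ W h (3 * (k + 1)) m hgd
    (fun i => mapG m (evk N k) (P i)) (fun i => ⟨hP2 i k, fun a b => hP1 i a b k⟩)
  choose w hw hwz using hn
  have hbd : ∀ i a b k, ‖w k i a b‖ ≤ 1 := fun i a b k => entry_unit _ (hw k i).1 a b
  let W' : Fin 6 → Matrix (Fin m) (Fin m) (ℕ →ᵇ Elt N) := fun i =>
    mkG (fun k => w k i) 1 (hbd i)
  have hW' : ∀ i k, mapG m (evk N k) (W' i) = w k i := fun i k => mkG_ev _ _ _ _
  have hWl : ∀ i a b, W' i a b ∈ lev h := fun i a b k => (hw k i).2 a b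
  let w' : Fin 6 → Matrix (Fin m) (Fin m) (Mo h π) := fun i => Matrix.of fun a b =>
    ⟨π (W' i a b), mem_Mo.2 ⟨W' i a b, hWl i a b, rfl⟩⟩
  let ι : Mo h π →⋆ₐ[ℂ] Q := (Mo h π).subtype
  have hι : Function.Injective (mapG m ι) := by
    intro x y hxy
    ext a b
    exact congrFun (congrFun hxy a) b
  have hw' : ∀ i, mapG m ι (w' i) = mapG m π (W' i) := fun i => by
    ext a b
    rfl
  have hWu : ∀ i, W' i ∈ unitary (Matrix (Fin m) (Fin m) (ℕ →ᵇ Elt N)) := fun i =>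
    mat_seq_unitary fun k => by rw [hW']; exact (hw k i).1
  refine ⟨w', fun i => ⟨?_, trivial⟩, fun z hz => ?_⟩
  · refine Unitary.mem_iff.2 ⟨hι ?_, hι ?_⟩
    · rw [map_mul, map_star, map_one, hw', ← map_star, ← map_mul,
        (Unitary.mem_iff.1 (hWu i)).1, map_one]
    · rw [map_mul, map_star, map_one, hw', ← map_star, ← map_mul,
        (Unitary.mem_iff.1 (hWu i)).2, map_one]
  choose Z hZ1 hZ2 hZ3 using fun i => Mo_liftG h hπ (z i) (hz i).1
  have hle : ∀ k, c ≤ FF (10 ^ 8) (mtr m T.τ) (fun i => mapG m (evk N k) (P i)) (w k)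
      (fun i => mapG m (evk N k) (Z i)) := fun k =>
    hwz k _ (fun i => ⟨hZ2 i k, fun a b => hZ1 i a b k⟩)
  let X : Ix3 → Matrix (Fin m) (Fin m) (ℕ →ᵇ Elt N) := asg P W' Z
  have h1 : ∀ k, c ≤ (fFF (10 ^ 8)).ev (mtr m T.τ) (fun j => mapG m (evk N k) (X j)) := by
    intro k
    have h2 := hle k
    rw [← fFF_ev] at h2
    have h3 : (fun j => mapG m (evk N k) (X j)) = asg (fun i => mapG m (evk N k) (P i)) (w k)
        (fun i => mapG m (evk N k) (Z i)) := by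
      funext j
      rcases j with j | j | j
      · rfl
      · exact hW' j k
      · rfl
    rw [h3]
    exact h2
  have h4 : c ≤ (fFF (10 ^ 8)).ev (mtr m σ) (fun j => mapG m π (X j)) :=
    ge_of_tendsto (Fm_tendstoG hπ X (fFF (10 ^ 8))) (Filter.Eventually.of_forall h1)
  have h5 : (fun j => mapG m π (X j)) = fun j => mapG m ι (asg p w' z j) := by
    funext j
    rcases j with j | j | j
    · exact hP3 j
    · exact (hw' j).symm
    · exact hZ3 j
  rw [h5, Fm.ev_map (mapG m ι) (φ := mtr m (phiM h hπ)) (fun x => rfl)] at h4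
  rw [← fFF_ev]
  exact h4

end Pool.Agent.KS6_75.FU
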