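import Mathlib
import Pool.Agent.KS6_75.FU.F3
import Pool.Graph.R_seed8.Helper278.HU.H7
import Pool.Graph.R_seed8.Helper278.HU.H9

set_option autoImplicit false
set_option linter.all false

open scoped InnerProductSpace ComplexOrder Topology
open Filter

namespace Pool.Agent.KS6_75.FU

open Pool.Agent.Helper278 Pool.Agent.Helper278.CE Pool.Agent.Helper436.AD Pool.Agent.Helper278.HU

theorem exists_closed_dep {A ι : Type} [Countable ι] (β : ι → Type) [∀ i, Finite (β i)]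
    (Φ : ∀ i, (β i → A) → A) (s0 : A) :
    ∃ S : Set A, s0 ∈ S ∧ S.Countable ∧ ∀ i, ∀ x : β i → A, (∀ t, x t ∈ S) → Φ i x ∈ S := by
  classical
  let T : ℕ → Set A := fun n => Nat.rec (motive := fun _ => Set A) {s0}
    (fun _ S => S ∪ ⋃ i, Φ i '' (Set.pi Set.univ fun _ => S)) n
  have hT0 : T 0 = {s0} := rfl
  have hTs : ∀ n, T (n + 1) = T n ∪ ⋃ i, Φ i '' (Set.pi Set.univ fun _ => T n) := fun n => rfl
  have hc : ∀ n, (T n).Countable := by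
    intro n
    induction n with
    | zero => rw [hT0]; exact Set.countable_singleton _
    | succ n ih =>
      rw [hTs]
      refine ih.union (Set.countable_iUnion fun i => ?_)
      exact (Set.countable_univ_pi fun _ => ih).image _
  have hmono : Monotone T := monotone_nat_of_le_succ fun n => by rw [hTs]; exact Set.subset_union_left
  refine ⟨⋃ n, T n, Set.mem_iUnion.2 ⟨0, by rw [hT0]; rfl⟩, Set.countable_iUnion hc, ?_⟩
  intro i x hx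
  have h1 : ∀ t, ∃ n, x t ∈ T n := fun t => Set.mem_iUnion.1 (hx t)
  choose n hn using h1
  obtain ⟨N, hN⟩ := (Set.finite_range n).bddAbove
  refine Set.mem_iUnion.2 ⟨N + 1, ?_⟩
  rw [hTs]
  refine Or.inr (Set.mem_iUnion.2 ⟨i, x, ?_, rfl⟩)
  intro t _
  exact hmono (hN ⟨t, rfl⟩) (hn t)

/-- what is needed from the countable set `S`, for matrices of all sizes -/
structure GoodG {A : Type} [Ring A] [StarRing A] [Algebra ℂ A] (φ : A →ₗ[ℂ] ℂ) (S : Set A)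
    (p : Fin 13 → A) (c : ℝ) : Prop where
  good : Good φ S p c
  polarG : ∀ (m : ℕ) (x : Matrix (Fin (m + 1)) (Fin (m + 1)) A), (∀ i j, x i j ∈ S) →
    ∃ v ∈ unitary (Matrix (Fin (m + 1)) (Fin (m + 1)) A), (∀ i j, v i j ∈ S) ∧
      ∃ b : Matrix (Fin (m + 1)) (Fin (m + 1)) A, (∀ i j, b i j ∈ S) ∧ x = v * (star b * b)
  unsatG : ∀ m : ℕ, (∀ j : ℕ, Gd ((m + 1) * 2 ^ j)) →
    ∀ q : Fin 13 → Matrix (Fin (m + 1)) (Fin (m + 1)) A,
    (∀ i, q i ∈ unitary (Matrix (Fin (m + 1)) (Fin (m + 1)) A) ∧ ∀ a b, q i a b ∈ S) →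
    ∃ w : Fin 6 → Matrix (Fin (m + 1)) (Fin (m + 1)) A,
      (∀ i, w i ∈ unitary (Matrix (Fin (m + 1)) (Fin (m + 1)) A) ∧ ∀ a b, w i a b ∈ S) ∧
      ∀ z : Fin 2 → Matrix (Fin (m + 1)) (Fin (m + 1)) A,
        (∀ i, z i ∈ unitary (Matrix (Fin (m + 1)) (Fin (m + 1)) A)) →
          c ≤ FF (10 ^ 8) (mtr (m + 1) φ) q w z

theorem gd_three (j : ℕ) : Gd ((2 + 1) * 2 ^ j) := by
  rintro l ⟨h1, h2⟩
  push_cast at h1 h2
  have hj : (0 : ℝ) < 2 ^ j := by positivity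
  rcases Nat.lt_or_ge l (j + 2) with hlt | hge
  · have h6 : (2 : ℝ) ^ l ≤ 2 ^ (j + 1) := pow_le_pow_right₀ (by norm_num) (by omega)
    rw [pow_succ] at h6
    linarith
  · have h6 : (2 : ℝ) ^ (j + 2) ≤ 2 ^ l := pow_le_pow_right₀ (by norm_num) hge
    rw [pow_add] at h6
    linarith

theorem exists_goodG {A : Type} [Ring A] [StarRing A] [Algebra ℂ A] [StarModule ℂ A]
    {φ : A →ₗ[ℂ] ℂ}
    (polar : ∀ x : A, ∃ v ∈ unitary A, ∃ b : A, x = v * (star b * b))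
    (polarG : ∀ (m : ℕ) (x : Matrix (Fin (m + 1)) (Fin (m + 1)) A),
      ∃ v ∈ unitary (Matrix (Fin (m + 1)) (Fin (m + 1)) A),
      ∃ b : Matrix (Fin (m + 1)) (Fin (m + 1)) A, x = v * (star b * b))
    (sat : ∃ p : Fin 13 → A, UU Set.univ p ∧ ∀ w : Fin 6 → A, UU Set.univ w →
      ∃ z : Fin 2 → A, UU Set.univ z ∧ FF (10 ^ 8) φ p w z ≤ 0)
    (unsat : ∃ c : ℝ, 0 < c ∧ ∀ m : ℕ, (∀ j : ℕ, Gd ((m + 1) * 2 ^ j)) →
      ∀ p : Fin 13 → Matrix (Fin (m + 1)) (Fin (m + 1)) A, UU Set.univ p →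
      ∃ w : Fin 6 → Matrix (Fin (m + 1)) (Fin (m + 1)) A, UU Set.univ w ∧
        ∀ z : Fin 2 → Matrix (Fin (m + 1)) (Fin (m + 1)) A, UU Set.univ z →
          c ≤ FF (10 ^ 8) (mtr (m + 1) φ) p w z)
    (gap : ∃ g : Fin 5 → A, (∀ l, g l ∈ unitary A) ∧
      ∀ x, n2 φ (x - φ x • (1 : A)) ≤ 20 * ∑ l, n2 φ (g l * x - x * g l))
    (inf : ∃ W : ℕ → A, (∀ i, W i ∈ unitary A) ∧ ∀ i j, i ≠ j → φ (star (W i) * W j) = 0) :
    ∃ (S : Set A) (p : Fin 13 → A) (c : ℝ), 0 < c ∧ GoodG φ S p c := by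
  classical
  choose v hv b hb using polar
  choose V3 hV3 B3 hB3 using polarG
  obtain ⟨p, hp, hsat⟩ := sat
  obtain ⟨c, hc, hunsat⟩ := unsat
  obtain ⟨g, hg, hgap⟩ := gap
  obtain ⟨W, hW, hW2⟩ := inf
  have hsat' : ∀ w : Fin 6 → A, ∃ z : Fin 2 → A, UU Set.univ w →
      (UU Set.univ z ∧ FF (10 ^ 8) φ p w z ≤ 0) := by
    intro w
    by_cases h : UU Set.univ w
    · obtain ⟨z, hz⟩ := hsat w h
      exact ⟨z, fun _ => hz⟩
    · exact ⟨0, fun h' => absurd h' h⟩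
  choose Z hZ using hsat'
  have hunsat' : ∀ (m : ℕ) (q : Fin 13 → Matrix (Fin (m + 1)) (Fin (m + 1)) A),
      ∃ w : Fin 6 → Matrix (Fin (m + 1)) (Fin (m + 1)) A,
      (∀ j : ℕ, Gd ((m + 1) * 2 ^ j)) → UU Set.univ q → (UU Set.univ w ∧
        ∀ z : Fin 2 → Matrix (Fin (m + 1)) (Fin (m + 1)) A, UU Set.univ z →
          c ≤ FF (10 ^ 8) (mtr (m + 1) φ) q w z) := by
    intro m q
    by_cases h : (∀ j : ℕ, Gd ((m + 1) * 2 ^ j)) ∧ UU Set.univ q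
    · obtain ⟨w, hw⟩ := hunsat m h.1 q h.2
      exact ⟨w, fun _ _ => hw⟩
    · exact ⟨0, fun h1 h2 => absurd ⟨h1, h2⟩ h⟩
  choose Wt hWt using hunsat'
  let β : ((Fin 13 ⊕ Fin 5 ⊕ ℕ ⊕ (ℚ × ℚ) ⊕ Fin 5 ⊕ Fin 2) ⊕
      (Σ m : ℕ, (Fin (m + 1) × Fin (m + 1)) ⊕ (Fin (m + 1) × Fin (m + 1)) ⊕
        (Fin 6 × Fin (m + 1) × Fin (m + 1)))) → Type :=
    Sum.elim (fun _ => Fin 6) (fun s => Fin 13 × Fin (s.1 + 1) × Fin (s.1 + 1))
  have hβ : ∀ i, Finite (β i) := by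
    rintro (i | ⟨m, i⟩)
    · show Finite (Fin 6)
      infer_instance
    · show Finite (Fin 13 × Fin (m + 1) × Fin (m + 1))
      infer_instance
  let Φ : ∀ i, (β i → A) → A := fun i => match i with
    | Sum.inl i => (Sum.elim (fun i _ => p i) <| Sum.elim (fun l _ => g l) <|
        Sum.elim (fun n _ => W n) <|
        Sum.elim (fun qr x => (((qr.1 : ℚ) : ℂ) + ((qr.2 : ℚ) : ℂ) * Complex.I) • x 0) <|
        Sum.elim (fun k x => (![x 0 + x 1, x 0 * x 1, Star.star (x 0), v (x 0), b (x 0)] :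
          Fin 5 → A) k) (fun l x => Z x l) : _ → (Fin 6 → A) → A) i
    | Sum.inr ⟨m, i⟩ => (Sum.elim (fun ij x => V3 m (Matrix.of fun s t => x (0, s, t)) ij.1 ij.2) <|
        Sum.elim (fun ij x => B3 m (Matrix.of fun s t => x (0, s, t)) ij.1 ij.2)
        (fun lij x => Wt m (fun k : Fin 13 => Matrix.of fun s t => x (k, s, t)) lij.1 lij.2.1
          lij.2.2) : _ → (Fin 13 × Fin (m + 1) × Fin (m + 1) → A) → A) i
  obtain ⟨S, hS1, hSc, hS⟩ := exists_closed_dep β Φ (1 : A)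
  have e_p : ∀ i, p i ∈ S := fun i => hS (Sum.inl (Sum.inl i)) (fun _ => 1) (fun _ => hS1)
  have e_g : ∀ l, g l ∈ S := fun l =>
    hS (Sum.inl (Sum.inr (Sum.inl l))) (fun _ => 1) (fun _ => hS1)
  have e_W : ∀ n, W n ∈ S := fun n =>
    hS (Sum.inl (Sum.inr (Sum.inr (Sum.inl n)))) (fun _ => 1) (fun _ => hS1)
  have e_smul : ∀ (q r : ℚ), ∀ x ∈ S, ((q : ℂ) + (r : ℂ) * Complex.I) • x ∈ S := fun q r x hx =>
    hS (Sum.inl (Sum.inr (Sum.inr (Sum.inr (Sum.inl (q, r)))))) (fun _ => x) (fun _ => hx)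
  have e_two : ∀ x ∈ S, ∀ y ∈ S, ∀ t : Fin 6, (fun t : Fin 6 => if t = 0 then x else y) t ∈ S := by
    intro x hx y hy t
    show (if t = 0 then x else y) ∈ S
    split_ifs
    · exact hx
    · exact hy
  have e_add : ∀ x ∈ S, ∀ y ∈ S, x + y ∈ S := fun x hx y hy =>
    hS (Sum.inl (Sum.inr (Sum.inr (Sum.inr (Sum.inr (Sum.inl 0))))))
      (fun t : Fin 6 => if t = 0 then x else y) (e_two x hx y hy)
  have e_mul : ∀ x ∈ S, ∀ y ∈ S, x * y ∈ S := fun x hx y hy =>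
    hS (Sum.inl (Sum.inr (Sum.inr (Sum.inr (Sum.inr (Sum.inl 1))))))
      (fun t : Fin 6 => if t = 0 then x else y) (e_two x hx y hy)
  have e_star : ∀ x ∈ S, Star.star x ∈ S := fun x hx =>
    hS (Sum.inl (Sum.inr (Sum.inr (Sum.inr (Sum.inr (Sum.inl 2)))))) (fun _ => x) (fun _ => hx)
  have e_v : ∀ x ∈ S, v x ∈ S := fun x hx =>
    hS (Sum.inl (Sum.inr (Sum.inr (Sum.inr (Sum.inr (Sum.inl 3)))))) (fun _ => x) (fun _ => hx)
  have e_b : ∀ x ∈ S, b x ∈ S := fun x hx =>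
    hS (Sum.inl (Sum.inr (Sum.inr (Sum.inr (Sum.inr (Sum.inl 4)))))) (fun _ => x) (fun _ => hx)
  have e_Z : ∀ w : Fin 6 → A, (∀ i, w i ∈ S) → ∀ l, Z w l ∈ S := fun w hw l =>
    hS (Sum.inl (Sum.inr (Sum.inr (Sum.inr (Sum.inr (Sum.inr l)))))) w hw
  have e_V3 : ∀ m, ∀ x : Matrix (Fin (m + 1)) (Fin (m + 1)) A, (∀ i j, x i j ∈ S) →
      ∀ i j, V3 m x i j ∈ S := fun m x hx i j =>
    hS (Sum.inr ⟨m, Sum.inl (i, j)⟩) (fun t : Fin 13 × Fin (m + 1) × Fin (m + 1) => x t.2.1 t.2.2)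
      (fun t => hx _ _)
  have e_B3 : ∀ m, ∀ x : Matrix (Fin (m + 1)) (Fin (m + 1)) A, (∀ i j, x i j ∈ S) →
      ∀ i j, B3 m x i j ∈ S := fun m x hx i j =>
    hS (Sum.inr ⟨m, Sum.inr (Sum.inl (i, j))⟩)
      (fun t : Fin 13 × Fin (m + 1) × Fin (m + 1) => x t.2.1 t.2.2) (fun t => hx _ _)
  have e_Wt : ∀ m, ∀ q : Fin 13 → Matrix (Fin (m + 1)) (Fin (m + 1)) A,
      (∀ k i j, q k i j ∈ S) → ∀ l i j, Wt m q l i j ∈ S := fun m q hq l i j =>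
    hS (Sum.inr ⟨m, Sum.inr (Sum.inr (l, i, j))⟩)
      (fun t : Fin 13 × Fin (m + 1) × Fin (m + 1) => q t.1 t.2.1 t.2.2) (fun t => hq _ _ _)
  have f_polar : ∀ (m : ℕ) (x : Matrix (Fin (m + 1)) (Fin (m + 1)) A), (∀ i j, x i j ∈ S) →
    ∃ v ∈ unitary (Matrix (Fin (m + 1)) (Fin (m + 1)) A), (∀ i j, v i j ∈ S) ∧
      ∃ b : Matrix (Fin (m + 1)) (Fin (m + 1)) A, (∀ i j, b i j ∈ S) ∧ x = v * (star b * b) :=
    fun m x hx => ⟨V3 m x, hV3 m x, e_V3 m x hx, B3 m x, e_B3 m x hx, hB3 m x⟩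
  have f_unsat : ∀ m : ℕ, (∀ j : ℕ, Gd ((m + 1) * 2 ^ j)) →
    ∀ q : Fin 13 → Matrix (Fin (m + 1)) (Fin (m + 1)) A,
    (∀ i, q i ∈ unitary (Matrix (Fin (m + 1)) (Fin (m + 1)) A) ∧ ∀ a b, q i a b ∈ S) →
    ∃ w : Fin 6 → Matrix (Fin (m + 1)) (Fin (m + 1)) A,
      (∀ i, w i ∈ unitary (Matrix (Fin (m + 1)) (Fin (m + 1)) A) ∧ ∀ a b, w i a b ∈ S) ∧
      ∀ z : Fin 2 → Matrix (Fin (m + 1)) (Fin (m + 1)) A,
        (∀ i, z i ∈ unitary (Matrix (Fin (m + 1)) (Fin (m + 1)) A)) →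
          c ≤ FF (10 ^ 8) (mtr (m + 1) φ) q w z := by
    intro m hgd q hq
    obtain ⟨h1, h2⟩ := hWt m q hgd (fun i => ⟨(hq i).1, trivial⟩)
    exact ⟨Wt m q, fun i => ⟨(h1 i).1, e_Wt m q (fun k i j => (hq k).2 i j) i⟩,
      fun z hz => h2 z (fun i => ⟨hz i, trivial⟩)⟩
  refine ⟨S, p, c, hc, ⟨⟨hSc, ⟨hS1, e_add, e_mul, e_star, e_smul⟩, fun i => ⟨(hp i).1, e_p i⟩,
    ⟨g, fun l => ⟨hg l, e_g l⟩, hgap⟩, ⟨W, fun i => ⟨hW i, e_W i⟩, hW2⟩,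
    fun x hx => ⟨v x, hv x, e_v x hx, b x, e_b x hx, hb x⟩, f_polar 2, ?_,
    f_unsat 2 gd_three⟩, f_polar, f_unsat⟩⟩
  intro w hw
  obtain ⟨h1, h2⟩ := hZ w (fun i => ⟨(hw i).1, trivial⟩)
  exact ⟨Z w, fun i => ⟨(h1 i).1, e_Z w (fun i => (hw i).2) i⟩, h2⟩

theorem dense_UG {A : Type} [Ring A] [StarRing A] [Algebra ℂ A] [StarModule ℂ A]
    {φ : A →ₗ[ℂ] ℂ} (h : TrAlg φ) {S : Set A} {p : Fin 13 → A} {c : ℝ} (hG : GoodG φ S p c)
    {T : StarSubalgebra ℂ A} (hT : (T : Set A) = closS φ S)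
    {P : Type} [Ring P] [StarRing P] [Algebra ℂ P] [StarModule ℂ P] {τ : P →ₗ[ℂ] ℂ}
    (ht : TrAlg τ) (e : T →⋆ₐ[ℂ] P) (he : ∀ a : T, τ (e a) = φ (a : A))
    (hd : ∀ (X : P) (ε : ℝ), 0 < ε → ∃ a : T, n2 τ (X - e a) < ε) (m : ℕ)
    (X : Matrix (Fin (m + 1)) (Fin (m + 1)) P)
    (hX : X ∈ unitary (Matrix (Fin (m + 1)) (Fin (m + 1)) P))
    (ε : ℝ) (hε : 0 < ε) :
    ∃ v : Matrix (Fin (m + 1)) (Fin (m + 1)) T,
      mapG (m + 1) T.subtype v ∈ unitary (Matrix (Fin (m + 1)) (Fin (m + 1)) A) ∧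
      (∀ a b, (v a b : A) ∈ S) ∧ n2 (mtrG (m + 1) τ) (X - mapG (m + 1) e v) ≤ ε := by
  have hST := closS_sub_636 h hT
  obtain ⟨M, hM⟩ : ∃ M : ℝ, M = ((m + 1 : ℕ) : ℝ) := ⟨_, rfl⟩
  have hMp : 0 < M := by rw [hM]; positivity
  have h0 : ∀ i j, ∃ s : T, (s : A) ∈ S ∧ n2 τ (X i j - e s) ≤ ε / (2 * M ^ 2) := fun i j =>
    approx_636 h hT ht e he hd (X i j) (ε / (2 * M ^ 2)) (by positivity)
  choose s hsS hs using h0
  obtain ⟨v, hv, hvS, b, hb, hsv⟩ := hG.polarG m (Matrix.of fun i j => (s i j : A)) hsS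
  let v' : Matrix (Fin (m + 1)) (Fin (m + 1)) T := Matrix.of fun i j => ⟨v i j, hST _ (hvS i j)⟩
  let b' : Matrix (Fin (m + 1)) (Fin (m + 1)) T := Matrix.of fun i j => ⟨b i j, hST _ (hb i j)⟩
  have hv' : mapG (m + 1) T.subtype v' = v := by ext i j; rfl
  have hb' : mapG (m + 1) T.subtype b' = b := by ext i j; rfl
  have hinj : Function.Injective (mapG (m + 1) T.subtype) := by
    intro x y hxy
    ext i j
    exact congrFun (congrFun hxy i) j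
  have hs' : mapG (m + 1) T.subtype (Matrix.of s) = Matrix.of fun i j => (s i j : A) := by
    ext i j; rfl
  have hsv' : Matrix.of s = v' * (star b' * b') := by
    apply hinj
    rw [hs', map_mul, map_mul, map_star, hv', hb', hsv]
  have hev : mapG (m + 1) e v' ∈ unitary (Matrix (Fin (m + 1)) (Fin (m + 1)) P) := by
    rw [Unitary.mem_iff] at hv ⊢
    constructor
    · rw [← map_star, ← map_mul, ← map_one (mapG (m + 1) e)]
      congr 1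
      apply hinj
      rw [map_mul, map_star, hv', map_one, hv.1]
    · rw [← map_star, ← map_mul, ← map_one (mapG (m + 1) e)]
      congr 1
      apply hinj
      rw [map_mul, map_star, hv', map_one, hv.2]
  have key := near_polar (mtrG_trAlg ht) (s := mapG (m + 1) e (Matrix.of s))
    (b := mapG (m + 1) e b') hev hX (by
    rw [hsv', map_mul, map_mul, map_star])
  refine ⟨v', by rw [hv']; exact hv, fun i j => hvS i j, ?_⟩
  have h5 := n2_mtrG_le ht (X - mapG (m + 1) e (Matrix.of s))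
  have h6 : ∑ i, ∑ j, n2 τ ((X - mapG (m + 1) e (Matrix.of s)) i j) ≤
      ∑ _i : Fin (m + 1), ∑ _j : Fin (m + 1), ε / (2 * M ^ 2) :=
    Finset.sum_le_sum fun i _ => Finset.sum_le_sum fun j _ => hs i j
  have h7 : ∑ _i : Fin (m + 1), ∑ _j : Fin (m + 1), ε / (2 * M ^ 2) = ε / 2 := by
    simp only [Finset.sum_const, Finset.card_univ, Fintype.card_fin, nsmul_eq_mul]
    rw [← hM]
    field_simp
  have h8 := h5.trans (h6.trans_eq h7)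
  linarith

end Pool.Agent.KS6_75.FU
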