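import Mathlib
import Pool.Agent.KS6_75.FU.F5
import Pool.Graph.R_seed8.Helper436.AD.Fin

set_option autoImplicit false
set_option linter.unusedSectionVars false

open scoped InnerProductSpace Topology BoundedContinuousFunction ComplexOrder
open Filter

namespace Pool.Agent.KS6_75.FU

open Pool.Agent.Helper278 Pool.Agent.Helper278.CE Pool.Agent.Helper436.SM Pool.Agent.Helper436.SN
open Pool.Agent.Helper436.AD

/-- What is needed from the ultrapower. -/
structure Nice {Q : Type} [Ring Q] [StarRing Q] [Algebra ℂ Q] (φ : Q →ₗ[ℂ] ℂ) : Prop where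
  tr : TrAlg φ
  near : ∀ x : Q, ∃ v ∈ unitary Q, n2 φ (x - v) ^ 2 ≤ n2 φ (star x * x - 1)
  comp : ∀ p q : Q, star p = p → p * p = p → star q = q → q * q = q →
    (φ p).re ≤ (φ q).re → ∃ v : Q, star v * v = p ∧ q * v = v
  uniq : ∀ χ : Q →ₗ[ℂ] ℂ, IsTr χ → ∀ x, χ x = φ x

theorem half_sum {A : Type} [Ring A] [StarRing A] [Algebra ℂ A] [StarModule ℂ A] (a : A)
    (ha : star a * a = 1) :
    star ((((1 : ℝ) / 2 : ℝ) : ℂ) • (1 + a)) * ((((1 : ℝ) / 2 : ℝ) : ℂ) • (1 + a)) +
      star ((((1 : ℝ) / 2 : ℝ) : ℂ) • (1 - a)) * ((((1 : ℝ) / 2 : ℝ) : ℂ) • (1 - a)) = 1 := by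
  obtain ⟨h2, hh2⟩ : ∃ h2 : ℂ, h2 = (((1 : ℝ) / 2 : ℝ) : ℂ) := ⟨_, rfl⟩
  rw [← hh2]
  have hst : star h2 = h2 := by rw [hh2, Complex.star_def, Complex.conj_ofReal]
  rw [star_smul, star_smul, hst, smul_mul_smul_comm, smul_mul_smul_comm, ← smul_add,
    star_add, star_sub, star_one]
  have e1 : (1 + star a) * (1 + a) + (1 - star a) * (1 - a) = (4 : ℂ) • (1 : A) := by
    have e2 : (1 + star a) * (1 + a) + (1 - star a) * (1 - a) =
      (2 : ℕ) • (1 : A) + (2 : ℕ) • (star a * a) := by noncomm_ring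
    rw [e2, ha, ← add_smul, ← Nat.cast_smul_eq_nsmul ℂ]
    norm_num
  rw [e1, smul_smul, hh2]
  have : ((((1 : ℝ) / 2 : ℝ) : ℂ) * (((1 : ℝ) / 2 : ℝ) : ℂ) * 4) = 1 := by
    push_cast; norm_num
  rw [this, one_smul]

section proj

variable {A : Type} [Ring A] [StarRing A] [Algebra ℂ A] [StarModule ℂ A] {τ : A →ₗ[ℂ] ℂ}

/-- a projection near a positive contraction -/
theorem proj_near (h : TrAlg τ) (hL : LyapProp τ) (x : A) (hs : star x = x) (h0 : Pos x)
    (h1 : Pos (1 - x)) :
    ∃ P : A, star P = P ∧ P * P = P ∧ n2 τ (P - x) ^ 2 = (τ (x - x * x)).re := by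
  obtain ⟨D, hxD, hc, hD⟩ := hL {x} (by rintro y rfl; exact hs) (by rintro y rfl z rfl; rfl)
  obtain ⟨p, hpD, hp, hpt⟩ := hD Bool Bool (fun i => if i then x else 1 - x)
    (fun k => if k then x else 1)
    (fun i => by
      cases i
      · exact D.sub_mem D.one_mem (hxD x rfl)
      · exact hxD x rfl)
    (fun i => by
      cases i
      · exact h1
      · exact h0)
    (by
      rw [Fintype.sum_bool]
      show x + (1 - x) = 1
      abel)
  refine ⟨p true, hp.star_eq true, hp.idem true, ?_⟩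
  have e1 := hpt true true
  have e2 := hpt true false
  simp only [if_true] at e1
  have e2' : τ (p true) = τ x := by simpa using e2
  rw [h.n2_sq, star_sub, hp.star_eq, hs]
  have e3 : (p true - x) * (p true - x) =
      p true - p true * x - x * p true + x * x := by
    rw [sub_mul, mul_sub, mul_sub, hp.idem]; abel
  rw [e3, map_add, map_sub, map_sub, h.comm x (p true), e1, e2', map_sub]
  congr 1
  ring

end proj

variable {H : Type} [NormedAddCommGroup H] [InnerProductSpace ℂ H] [CompleteSpace H]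
variable {N : VonNeumannAlgebra H}

/-- comparison of projections in a finite factor -/
theorem exists_cmp (T : TracialState N) (hN : HasTrivialCenter N) (p q : Elt N)
    (hp : star p = p) (hpp : p * p = p) (hq : star q = q) (hqq : q * q = q) :
    ∃ W : Elt N, W * (star W * W) = W ∧ W * p = W ∧ q * W = W ∧
      (star W * W = p ∨ W * star W = q) := by
  have hA := trAlg T
  have hp' : star (p : H →L[ℂ] H) = p := congrArg Subtype.val hp
  have hpp' : (p : H →L[ℂ] H) * p = p := congrArg Subtype.val hpp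
  have hq' : star (q : H →L[ℂ] H) = q := congrArg Subtype.val hq
  have hqq' : (q : H →L[ℂ] H) * q = q := congrArg Subtype.val hqq
  obtain ⟨w, hwN, hw1, hqp, hext⟩ := exists_extreme_corner N (p : H →L[ℂ] H) (q : H →L[ℂ] H)
  have hpi := extreme_partial' N hwN hpp' hqq' hp' hw1 hqp hext
  have hcor := extreme_corner' N hwN p.2 q.2 hp' hpp' hqq' hq' hqp hpi hext
  have hwp : w * p = w := by
    calc w * p = q * w * p * p := by rw [hqp]
      _ = q * w * ((p : H →L[ℂ] H) * p) := by rw [mul_assoc ((q : H →L[ℂ] H) * w)]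
      _ = w := by rw [hpp', hqp]
  have hqw : q * w = w := by
    calc q * w = q * (q * w * p) := by rw [hqp]
      _ = ((q : H →L[ℂ] H) * q) * w * p := by noncomm_ring
      _ = w := by rw [hqq', hqp]
  let W : Elt N := ⟨w, hwN⟩
  have hWpi : W * (star W * W) = W := Subtype.ext hpi
  have hWp : W * p = W := Subtype.ext hwp
  have hqW : q * W = W := Subtype.ext hqw
  have hor := factor_corner N hN ((q - W * star W : Elt N) : H →L[ℂ] H)
    ((p - star W * W : Elt N) : H →L[ℂ] H) (q - W * star W).2 (p - star W * W).2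
    (fun x hx => hcor x hx)
  refine ⟨W, hWpi, hWp, hqW, ?_⟩
  rcases hor with h0 | h0
  · right
    have h1 : q - W * star W = 0 := Subtype.ext h0
    exact (sub_eq_zero.1 h1).symm
  · left
    have h1 : p - star W * W = 0 := Subtype.ext h0
    exact (sub_eq_zero.1 h1).symm

variable {Q : Type} [Ring Q] [StarRing Q] [Algebra ℂ Q] [StarModule ℂ Q]
variable {T : TracialState N} {U : Ultrafilter ℕ} {π : (ℕ →ᵇ Elt N) →⋆ₐ[ℂ] Q} {σ : Q → ℂ}

theorem pi_ev (hπ : Helper278.IsTracialUltrapower T.τ U π σ) (x y : ℕ →ᵇ Elt N)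
    (h : ∀ᶠ n in (U : Filter ℕ), x n = y n) : π x = π y := by
  rw [pi_eq_iff hπ]
  refine tendsto_const_nhds.congr' (h.mono fun n hn => ?_)
  show (0 : ℝ) = n2 T.τ (x n - y n)
  rw [hn, sub_self, (trAlg T).n2_zero]

/-- projections of the ultrapower lift to sequences of projections -/
theorem exists_proj_lift (hL : LyapProp T.τ) (hπ : Helper278.IsTracialUltrapower T.τ U π σ)
    (p : Q) (hp : star p = p) (hpp : p * p = p) :
    ∃ P : ℕ →ᵇ Elt N, (∀ n, star (P n) = P n) ∧ (∀ n, P n * P n = P n) ∧ π P = p := by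
  have hA := trAlg T
  obtain ⟨u, hu⟩ : ∃ u : Q, u = (2 : ℕ) • p - 1 := ⟨_, rfl⟩
  have hus : star u = u := by rw [hu, star_sub, star_nsmul, hp, star_one]
  have huu : u * u = 1 := by
    rw [hu, sub_mul, mul_sub, smul_mul_smul_comm, hpp]
    simp only [one_mul, mul_one]
    have : (2 * 2 : ℕ) • p = (2 : ℕ) • p + (2 : ℕ) • p := by rw [← add_smul]
    rw [this]; abel
  have hU : u ∈ unitary Q := Unitary.mem_iff.2 ⟨by rw [hus, huu], by rw [hus, huu]⟩
  obtain ⟨a, ha⟩ := exists_unitary_lift hπ u hU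
  obtain ⟨h2, hh2⟩ : ∃ h2 : ℂ, h2 = (((1 : ℝ) / 2 : ℝ) : ℂ) := ⟨_, rfl⟩
  obtain ⟨c, hc⟩ : ∃ c : ℕ →ᵇ Elt N, c = h2 • (1 + mkB a) := ⟨_, rfl⟩
  obtain ⟨c', hc'⟩ : ∃ c' : ℕ →ᵇ Elt N, c' = h2 • (1 - mkB a) := ⟨_, rfl⟩
  have hbu : star (mkB a) * mkB a = 1 := by
    refine BoundedContinuousFunction.ext fun n => ?_
    exact (Unitary.mem_iff.1 (a n).2).1
  have hsum : star c * c + star c' * c' = 1 := by
    have := half_sum (A := ℕ →ᵇ Elt N) (mkB a) hbu
    rw [hc, hc', hh2]
    exact this
  have hx : ∀ n, ∃ P : Elt N, star P = P ∧ P * P = P ∧ n2 T.τ (P - (star c * c) n) ^ 2 =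
      (T.τ ((star c * c) n - (star c * c) n * (star c * c) n)).re := by
    intro n
    refine proj_near hA hL ((star c * c) n) ?_ (pos_star_mul (c n)) ?_
    · show star (star (c n) * c n) = star (c n) * c n
      rw [star_mul, star_star]
    · have h3 : (1 : Elt N) - (star c * c) n = star (c' n) * c' n := by
        have h4 := congrArg (fun f : ℕ →ᵇ Elt N => f n) hsum
        have h5 : (star c * c) n + star (c' n) * c' n = 1 := h4
        rw [← h5]; abel
      rw [h3]
      exact pos_star_mul (c' n)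
  choose P hP1 hP2 hP3 using hx
  have hPn : ∀ n, ‖P n‖ ≤ 1 := fun n => norm_proj_le _ (hP1 n) (hP2 n)
  refine ⟨BoundedContinuousFunction.ofNormedAddCommGroupDiscrete P 1 hPn, hP1, hP2, ?_⟩
  have hpx : π (star c * c) = p := by
    have hst : star h2 = h2 := by rw [hh2, Complex.star_def, Complex.conj_ofReal]
    have hπc : π c = h2 • (1 + u) := by rw [hc, map_smul, map_add, map_one, ha]
    rw [map_mul, map_star, hπc, star_smul, hst, star_add, star_one, hus, smul_mul_smul_comm]
    have e1 : (1 + u) * (1 + u) = (4 : ℕ) • p := by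
      have e2 : (1 + u) * (1 + u) = 1 + (2 : ℕ) • u + u * u := by noncomm_ring
      rw [e2, huu, hu, smul_sub, smul_smul]
      have : (2 : ℕ) • (1 : Q) = 1 + 1 := two_nsmul 1
      rw [this]; abel
    rw [e1, ← Nat.cast_smul_eq_nsmul ℂ, smul_smul, hh2]
    have : ((((1 : ℝ) / 2 : ℝ) : ℂ) * (((1 : ℝ) / 2 : ℝ) : ℂ) * ((4 : ℕ) : ℂ)) = 1 := by
      push_cast; norm_num
    rw [this, one_smul]
  rw [← hpx, pi_eq_iff hπ]
  have h3 := (Complex.continuous_re.tendsto _).comp
    (hπ.trace (star c * c - star c * c * (star c * c)))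
  have h4 : σ (π (star c * c - star c * c * (star c * c))) = 0 := by
    rw [map_sub, map_mul π (star c * c) (star c * c), hpx, hpp, sub_self]
    exact map_zero (sigmaL hπ)
  rw [h4, Complex.zero_re] at h3
  have h5 : Tendsto (fun n => Real.sqrt
      ((T.τ ((star c * c) n - (star c * c) n * (star c * c) n)).re)) U (𝓝 0) := by
    have := (Real.continuous_sqrt.tendsto 0).comp h3
    rw [Real.sqrt_zero] at this
    exact this
  refine h5.congr fun n => ?_
  rw [← hP3 n, Real.sqrt_sq (n2_nonneg _ _)]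
  rfl

theorem nice_of (hN : HasTrivialCenter N) (hinf : ¬ FiniteDimensional ℂ (Elt N))
    (hπ : Helper278.IsTracialUltrapower T.τ U π σ) : Nice (sigmaL hπ) := by
  have hA := trAlg T
  have hS := sigma_trAlg hπ
  have hL : LyapProp T.τ := lyapProp T (diffuse_of_factor T hN hinf)
  refine ⟨hS, ?_, ?_, ?_⟩
  · intro x
    obtain ⟨y, rfl⟩ := hπ.surj x
    choose w hw hwn using fun n => exists_unitary_near T (y n)
    refine ⟨π (mkB fun n => ⟨w n, hw n⟩), ?_, ?_⟩
    · have h1 : (mkB fun n => ⟨w n, hw n⟩ : ℕ →ᵇ Elt N) ∈ unitary (ℕ →ᵇ Elt N) := by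
        refine Unitary.mem_iff.2 ⟨?_, ?_⟩
        · refine BoundedContinuousFunction.ext fun n => ?_
          exact (Unitary.mem_iff.1 (hw n)).1
        · refine BoundedContinuousFunction.ext fun n => ?_
          exact (Unitary.mem_iff.1 (hw n)).2
      exact Unitary.map_mem π h1
    · rw [← map_sub, ← map_star, ← map_mul, ← map_one π, ← map_sub]
      refine le_of_tendsto_of_tendsto' ((tendsto_n2_pi hπ _).pow 2) (tendsto_n2_pi hπ _)
        fun n => ?_
      exact hwn n
  · intro p q hp hpp hq hqq hle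
    obtain ⟨P, hP1, hP2, hP3⟩ := exists_proj_lift hL hπ p hp hpp
    obtain ⟨R, hR1, hR2, hR3⟩ := exists_proj_lift hL hπ q hq hqq
    choose w hw1 hw2 hw3 hw4 using fun n =>
      exists_cmp T hN (P n) (R n) (hP1 n) (hP2 n) (hR1 n) (hR2 n)
    have hws : ∀ n, star (star (w n) * w n) = star (w n) * w n := fun n => by
      rw [star_mul, star_star]
    have hww : ∀ n, star (w n) * w n * (star (w n) * w n) = star (w n) * w n := fun n => by
      rw [mul_assoc, hw1 n]
    have hwn : ∀ n, ‖w n‖ ≤ 1 := fun n =>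
      norm_partial_le _ _ (norm_proj_le _ (hws n) (hww n)) rfl
    obtain ⟨W, hW⟩ : ∃ W : ℕ →ᵇ Elt N, ∀ n, W n = w n :=
      ⟨BoundedContinuousFunction.ofNormedAddCommGroupDiscrete w 1 hwn, fun _ => rfl⟩
    have e1 : R * W = W := by
      refine BoundedContinuousFunction.ext fun n => ?_
      show R n * W n = W n
      rw [hW, hw3]
    have e2 : W * P = W := by
      refine BoundedContinuousFunction.ext fun n => ?_
      show W n * P n = W n
      rw [hW, hw2]
    have e3 : W * (star W * W) = W := by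
      refine BoundedContinuousFunction.ext fun n => ?_
      show W n * (star (W n) * W n) = W n
      rw [hW, hw1]
    have f1 : q * π W = π W := by rw [← hR3, ← map_mul, e1]
    have f2 : π W * p = π W := by rw [← hP3, ← map_mul, e2]
    have f3 : π W * (star (π W) * π W) = π W := by
      rw [← map_star, ← map_mul, ← map_mul, e3]
    have hor : ∀ᶠ n in (U : Filter ℕ), star (w n) * w n = P n ∨ w n * star (w n) = R n :=
      Filter.Eventually.of_forall hw4
    rw [Ultrafilter.eventually_or] at hor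
    rcases hor with h1 | h1
    · refine ⟨π W, ?_, f1⟩
      rw [← hP3, ← map_star, ← map_mul]
      refine pi_ev hπ _ _ (h1.mono fun n hn => ?_)
      show star (W n) * W n = P n
      rw [hW, hn]
    · have h2 : π W * star (π W) = q := by
        rw [← hR3, ← map_star, ← map_mul]
        refine pi_ev hπ _ _ (h1.mono fun n hn => ?_)
        show W n * star (W n) = R n
        rw [hW, hn]
      refine ⟨π W, ?_, f1⟩
      obtain ⟨d, hd⟩ : ∃ d : Q, d = p - star (π W) * π W := ⟨_, rfl⟩
      have g1 : p * (star (π W) * π W) = star (π W) * π W := by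
        have := congrArg star f2
        rw [star_mul, hp] at this
        rw [← mul_assoc, this]
      have g2 : star (π W) * π W * p = star (π W) * π W := by
        rw [mul_assoc, f2]
      have g3 : star (π W) * π W * (star (π W) * π W) = star (π W) * π W := by
        rw [mul_assoc, f3]
      have hdd : star d * d = d := by
        have : star d = d := by rw [hd, star_sub, hp, star_mul, star_star]
        rw [this, hd, sub_mul, mul_sub, mul_sub, hpp, g1, g2, g3]
        abel
      have h3 : sigmaL hπ (star d * d) = 0 := by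
        refine Complex.ext ?_ (hS.im_zero d)
        have h4 := hS.re_nonneg d
        refine le_antisymm ?_ h4
        rw [hdd, hd, map_sub, hS.comm, h2, Complex.sub_re]
        have : ((0 : ℂ)).re = 0 := rfl
        rw [this]
        linarith
      have h5 := hS.faithful d h3
      rw [hd] at h5
      exact (sub_eq_zero.1 h5).symm
  · intro χ hχ x
    exact trace_unique hπ hL hN χ hχ x

end Pool.Agent.KS6_75.FU
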