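import Mathlib
import Pool.Agent.KS6_75.FU.G1
import Pool.Agent.KS6_75.FU.F0
import Pool.Graph.R_seed8.Helper278.SF.AmpQ
import Pool.Graph.R_seed8.Helper436.SM.TrUniq

set_option autoImplicit false
set_option linter.unusedSectionVars false

open scoped InnerProductSpace Topology BoundedContinuousFunction ComplexOrder
open Filter

namespace Pool.Agent.KS6_75.FU

open Pool.Agent.Helper278 Pool.Agent.Helper278.CE Pool.Agent.Helper436.SM Pool.Agent.Helper436.SN
open Pool.Agent.Helper436.AD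

variable {H : Type} [NormedAddCommGroup H] [InnerProductSpace ℂ H] [CompleteSpace H]

/-- ultrapowers of II₁ factors are nice -/
theorem nice_ultra {N : VonNeumannAlgebra H} {τ : Elt N → ℂ} (hfac : IsIIOneFactor N τ)
    {U : Ultrafilter ℕ} {Q : Type} [Ring Q] [StarRing Q] [Algebra ℂ Q]
    {π : (ℕ → Elt N) → Q} {φ : Q → ℂ} (hπ : CE.IsTracialUltrapower τ U π φ) :
    StarModule ℂ Q ∧ ∃ φL : Q →ₗ[ℂ] ℂ, (∀ x, φL x = φ x) ∧ Nice φL := by
  obtain ⟨T, hT⟩ : ∃ T : TracialState N, T = mkState N τ hfac.normal hfac.trace := ⟨_, rfl⟩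
  have hTτ : ∀ x, T.τ x = τ x := fun x => by rw [hT]; rfl
  have hb : ∀ f : ℕ →ᵇ Elt N, CE.BddFam (fun i => f i) := fun f => ⟨‖f‖, fun i => f.norm_coe_le_norm i⟩
  have hadd : ∀ f g : ℕ →ᵇ Elt N, π (fun i => (f + g) i) = π (fun i => f i) + π (fun i => g i) :=
    fun f g => hπ.quot.add _ _ (hb f) (hb g)
  have hmul : ∀ f g : ℕ →ᵇ Elt N, π (fun i => (f * g) i) = π (fun i => f i) * π (fun i => g i) :=
    fun f g => hπ.quot.mul _ _ (hb f) (hb g)
  have hone : π (fun i => (1 : ℕ →ᵇ Elt N) i) = 1 := hπ.quot.one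
  have hsmul : ∀ (c : ℂ) (f : ℕ →ᵇ Elt N), π (fun i => (c • f) i) = c • π (fun i => f i) :=
    fun c f => hπ.quot.smul c _ (hb f)
  have hstar : ∀ f : ℕ →ᵇ Elt N, π (fun i => (star f) i) = star (π (fun i => f i)) :=
    fun f => hπ.quot.star _ (hb f)
  have hzero : π (fun i => (0 : ℕ →ᵇ Elt N) i) = 0 := by
    have h := hadd 0 0
    rw [add_zero] at h
    simpa using h
  let π' : (ℕ →ᵇ Elt N) →⋆ₐ[ℂ] Q :=
    { toFun := fun f => π (fun i => f i)
      map_one' := hone
      map_mul' := hmul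
      map_zero' := hzero
      map_add' := hadd
      commutes' := by
        intro c
        rw [Algebra.algebraMap_eq_smul_one, Algebra.algebraMap_eq_smul_one]
        rw [hsmul, hone]
      map_star' := hstar }
  have hTU : Helper278.IsTracialUltrapower T.τ U π' φ := by
    refine ⟨?_, ?_, ?_⟩
    · intro q
      obtain ⟨y, ⟨C, hC⟩, hy⟩ := hπ.quot.surj q
      exact ⟨BoundedContinuousFunction.ofNormedAddCommGroupDiscrete y C hC, hy⟩
    · intro f
      refine (hπ.quot.ker _ (hb f)).trans ?_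
      simp only [hTτ]
    · intro f
      have := hπ.trace _ (hb f)
      simp only [hTτ]
      exact this
  have hSM : StarModule ℂ Q := by
    refine ⟨fun c q => ?_⟩
    obtain ⟨a, rfl⟩ := hTU.surj q
    rw [← map_smul, ← map_star, star_smul, map_smul, map_star]
  refine ⟨hSM, sigmaL hTU, fun x => rfl, ?_⟩
  exact nice_of hfac.center hfac.infinite hTU

/-- so are the matrix algebras over them -/
theorem nice_mat {N : VonNeumannAlgebra H} {τ : Elt N → ℂ} (hfac : IsIIOneFactor N τ)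
    {U : Ultrafilter ℕ} {Q : Type} [Ring Q] [StarRing Q] [Algebra ℂ Q] [StarModule ℂ Q]
    {π : (ℕ → Elt N) → Q} {φ : Q → ℂ} (hπ : CE.IsTracialUltrapower τ U π φ)
    (φL : Q →ₗ[ℂ] ℂ) (hφ : ∀ x, φL x = φ x) (m : ℕ) (hm : 1 ≤ m) : Nice (mtrG m φL) := by
  obtain ⟨M, e, he⟩ := exists_amp m N
  have hfacm := amp_factor hm hfac he
  obtain ⟨_, ψ, hψ, hn⟩ := nice_ultra hfacm (SF.amp_ultraQ hm hfac he hπ)
  have : ψ = mtrG m φL := by
    refine LinearMap.ext fun x => ?_
    rw [hψ, mtrG_eq]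
    unfold mtr
    simp only [hφ]
  rw [← this]
  exact hn

/-- the failure of the sentence passes to the ultrapower -/
theorem unsat_ultra {N : VonNeumannAlgebra H} {τ : Elt N → ℂ} (hfac : IsIIOneFactor N τ)
    {U : Ultrafilter ℕ} {Q : Type} [Ring Q] [StarRing Q] [Algebra ℂ Q]
    {π : (ℕ → Elt N) → Q} {φ : Q → ℂ} (hπ : CE.IsTracialUltrapower τ U π φ)
    (f : Fm Ix3) (m : ℕ) (hm : 1 ≤ m) {r r' : ℝ} (hr : r < r') (h : ¬ Sat f (mtr m τ) r') :
    ¬ Sat f (mtr m φ) r := by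
  intro hs
  obtain ⟨M, e, he⟩ := exists_amp m N
  have hfacm := amp_factor hm hfac he
  have hu := SF.amp_ultraQ hm hfac he hπ
  have hu' : CE.IsTracialUltrapower
      (fun x => (mkState M (ampTr e τ) hfacm.normal hfacm.trace).τ x) U
      (fun y => (Matrix.of fun i j => π fun n => (e.symm (y n)) i j : Matrix (Fin m) (Fin m) Q))
      (mtr m φ) := hu
  have h1 := Sat.down hu' f hr hs
  apply h
  exact Sat.iso (φ := ampTr e τ) (ψ := mtr m τ) e.symm (fun x => rfl) h1

theorem sat_ultra {N : VonNeumannAlgebra H} {τ : Elt N → ℂ} (hfac : IsIIOneFactor N τ)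
    {U : Ultrafilter ℕ} {Q : Type} [Ring Q] [StarRing Q] [Algebra ℂ Q]
    {π : (ℕ → Elt N) → Q} {φ : Q → ℂ} (hπ : CE.IsTracialUltrapower τ U π φ)
    (f : Fm Ix3) {r : ℝ} (h : Sat f τ r) : Sat f φ r := by
  have hπ' : CE.IsTracialUltrapower
      (fun x => (mkState N τ hfac.normal hfac.trace).τ x) U π φ := hπ
  exact Sat.up hπ' f h

end Pool.Agent.KS6_75.FU
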