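import Mathlib
import Pool.Agent.KS6_75.FU.G1

set_option autoImplicit false
set_option linter.unusedSectionVars false

open scoped InnerProductSpace Topology BoundedContinuousFunction ComplexOrder
open Filter

namespace Pool.Agent.KS6_75.FU

open Pool.Agent.Helper278 Pool.Agent.Helper278.CE Pool.Agent.Helper436.SM Pool.Agent.Helper436.SN
open Pool.Agent.Helper436.AD

/-- `θ` is an isomorphism of `A` onto the corner `pBp`. -/
structure IsCor {A B : Type} [Ring A] [StarRing A] [Algebra ℂ A] [Ring B] [StarRing B]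
    [Algebra ℂ B] (θ : A →⋆ₙₐ[ℂ] B) (p : B) : Prop where
  sa : star p = p
  idem : p * p = p
  inj : Function.Injective θ
  range : Set.range θ = {y | p * y * p = y}

section basic

variable {A B : Type} [Ring A] [StarRing A] [Algebra ℂ A] [Ring B] [StarRing B] [Algebra ℂ B]
variable {θ : A →⋆ₙₐ[ℂ] B} {p : B}

theorem IsCor.mem (h : IsCor θ p) (x : A) : p * θ x * p = θ x := by
  have h1 : θ x ∈ Set.range θ := ⟨x, rfl⟩
  rw [h.range] at h1
  exact h1

theorem IsCor.ex (h : IsCor θ p) {y : B} (hy : p * y * p = y) : ∃ x, θ x = y := by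
  have h1 : y ∈ {y | p * y * p = y} := hy
  rw [← h.range] at h1
  exact h1

theorem IsCor.ml (h : IsCor θ p) (x : A) : p * θ x = θ x := by
  rw [← h.mem x, ← mul_assoc, ← mul_assoc, h.idem]

theorem IsCor.mr (h : IsCor θ p) (x : A) : θ x * p = θ x := by
  rw [← h.mem x, mul_assoc, h.idem]

theorem IsCor.one (h : IsCor θ p) : θ 1 = p := by
  obtain ⟨e, he⟩ := h.ex (y := p) (by rw [h.idem, h.idem])
  have h1 := h.mr 1
  rw [← he, ← map_mul, one_mul] at h1
  rw [← h1, he]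

variable [StarModule ℂ A] [StarModule ℂ B] {α : A →ₗ[ℂ] ℂ} {β : B →ₗ[ℂ] ℂ}

theorem proj_real (hβ : TrAlg β) {q : B} (hq : star q = q) : β q = ((β q).re : ℂ) := by
  have h1 := hβ.conj q
  rw [hq] at h1
  have h2 := congrArg Complex.im h1
  have h3 : (star (β q)).im = - (β q).im := rfl
  rw [h3] at h2
  refine Complex.ext ?_ ?_
  · rw [Complex.ofReal_re]
  · rw [Complex.ofReal_im]; linarith

theorem IsCor.trace (h : IsCor θ p) (hα : Nice α) (hβ : TrAlg β) (hp : 0 < (β p).re) (x : A) :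
    β (θ x) = β p * α x := by
  have hreal := proj_real hβ h.sa
  have hne : β p ≠ 0 := by
    intro h0
    rw [h0] at hp
    exact lt_irrefl _ hp
  obtain ⟨χ, hχ⟩ : ∃ χ : A →ₗ[ℂ] ℂ, ∀ y, χ y = (β p)⁻¹ * β (θ y) := by
    refine ⟨{ toFun := fun y => (β p)⁻¹ * β (θ y), map_add' := ?_, map_smul' := ?_ }, fun y => rfl⟩
    · intro y z
      rw [map_add, map_add, mul_add]
    · intro c y
      rw [map_smul, map_smul, smul_eq_mul, RingHom.id_apply, smul_eq_mul]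
      ring
  have hIs : IsTr χ := by
    refine ⟨?_, ?_, ?_⟩
    · rw [hχ, h.one, inv_mul_cancel₀ hne]
    · intro y z
      rw [hχ, hχ, map_mul θ, map_mul θ, hβ.comm]
    · intro y
      rw [hχ, map_mul θ, map_star]
      refine mul_nonneg ?_ (hβ.nonneg _)
      rw [hreal, ← Complex.ofReal_inv, Complex.zero_le_real]
      exact inv_nonneg.2 hp.le
  have := hα.uniq χ hIs x
  rw [hχ] at this
  rw [← this, ← mul_assoc, mul_inv_cancel₀ hne, one_mul]

/-- the homomorphism `(a, c) ↦ θ a + c (1 - p)` -/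
noncomputable def theta (θ : A →⋆ₙₐ[ℂ] B) (p : B) (h : IsCor θ p) : A × ℂ →⋆ₐ[ℂ] B where
  toFun x := θ x.1 + x.2 • (1 - p)
  map_one' := by
    show θ 1 + (1 : ℂ) • (1 - p) = 1
    rw [h.one, one_smul]; abel
  map_mul' x y := by
    show θ (x.1 * y.1) + (x.2 * y.2) • (1 - p) = (θ x.1 + x.2 • (1 - p)) * (θ y.1 + y.2 • (1 - p))
    rw [add_mul, mul_add, mul_add, smul_mul_smul_comm, mul_smul_comm, smul_mul_assoc, map_mul]
    have e1 : θ x.1 * (1 - p) = 0 := by rw [mul_sub, mul_one, h.mr, sub_self]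
    have e2 : (1 - p) * θ y.1 = 0 := by rw [sub_mul, one_mul, h.ml, sub_self]
    have e3 : (1 - p) * (1 - p) = 1 - p := by
      rw [mul_sub, mul_one, sub_mul, one_mul, h.idem]; abel
    rw [e1, e2, e3, smul_zero, smul_zero, add_zero, zero_add]
  map_zero' := by
    show θ 0 + (0 : ℂ) • (1 - p) = 0
    rw [map_zero, zero_smul, add_zero]
  map_add' x y := by
    show θ (x.1 + y.1) + (x.2 + y.2) • (1 - p) = (θ x.1 + x.2 • (1 - p)) + (θ y.1 + y.2 • (1 - p))
    rw [map_add, add_smul]; abel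
  commutes' c := by
    show θ (algebraMap ℂ (A × ℂ) c).1 + (algebraMap ℂ (A × ℂ) c).2 • (1 - p) = algebraMap ℂ B c
    have e1 : (algebraMap ℂ (A × ℂ) c).1 = c • (1 : A) := Algebra.algebraMap_eq_smul_one c
    have e2 : (algebraMap ℂ (A × ℂ) c).2 = c := rfl
    rw [e1, e2, map_smul, h.one, Algebra.algebraMap_eq_smul_one, ← smul_add]
    congr 1; abel
  map_star' x := by
    show θ (star x.1) + (star x.2) • (1 - p) = star (θ x.1 + x.2 • (1 - p))
    rw [star_add, star_smul, star_sub, star_one, h.sa, map_star]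

theorem theta_apply (h : IsCor θ p) (a : A) (c : ℂ) :
    theta θ p h (a, c) = θ a + c • (1 - p) := rfl

theorem theta_trace (h : IsCor θ p) (hβ : TrAlg β) (htr : ∀ x, β (θ x) = β p * α x) (a : A)
    (c : ℂ) : β (theta θ p h (a, c)) = β p * α a + c * (1 - β p) := by
  rw [theta_apply, map_add, map_smul, map_sub, hβ.one, htr, smul_eq_mul]

theorem theta_unitary (h : IsCor θ p) {v : A} (hv : v ∈ unitary A) :
    theta θ p h (v, 1) ∈ unitary B := by
  refine Unitary.map_mem _ ?_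
  exact Unitary.mem_iff.2 ⟨Prod.ext (Unitary.mem_iff.1 hv).1 (by simp),
    Prod.ext (Unitary.mem_iff.1 hv).2 (by simp)⟩

theorem tm_prod {ι : Type} (x : ι → A) (t : Tm ι) :
    t.ev (fun i => ((x i, (1 : ℂ)) : A × ℂ)) = (t.ev x, t.ev (fun _ => (1 : ℂ))) := by
  induction t with
  | var i => rfl
  | one => rfl
  | star t ih => simp only [Tm.ev]; rw [ih]; rfl
  | mul s t ihs iht => simp only [Tm.ev]; rw [ihs, iht]; rfl
  | add s t ihs iht => simp only [Tm.ev]; rw [ihs, iht]; rfl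
  | smul c t ih => simp only [Tm.ev]; rw [ih]; rfl

theorem tm_theta {ι : Type} (h : IsCor θ p) (x : ι → A) (t : Tm ι) :
    t.ev (fun i => theta θ p h (x i, 1)) = theta θ p h (t.ev x, t.ev (fun _ => (1 : ℂ))) := by
  have := Tm.ev_map_aux (theta θ p h) (fun i => ((x i, (1 : ℂ)) : A × ℂ)) t
  rw [tm_prod] at this
  exact this

end basic

/-- evaluation of formulas on a large corner -/
theorem cut_main {ι : Type} (f : Fm ι) (η : ℝ) (hη : 0 < η) :
    ∃ δ : ℝ, 0 < δ ∧ ∀ (A B : Type) [Ring A] [StarRing A] [Algebra ℂ A] [StarModule ℂ A]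
      [Ring B] [StarRing B] [Algebra ℂ B] [StarModule ℂ B] (α : A →ₗ[ℂ] ℂ) (β : B →ₗ[ℂ] ℂ)
      (θ : A →⋆ₙₐ[ℂ] B) (p : B) (h : IsCor θ p), TrAlg α → TrAlg β →
      (∀ x, β (θ x) = β p * α x) → 0 ≤ (β p).re → (β p).re ≤ 1 → 1 - (β p).re ≤ δ →
      ∀ x : ι → A, (∀ i, x i ∈ unitary A) →
        |f.ev β (fun i => theta θ p h (x i, 1)) - f.ev α x| ≤ η := by
  induction f generalizing η with
  | n2s t =>
    obtain ⟨C, hC, c1⟩ := uc_n2 t
    obtain ⟨l, hl⟩ : ∃ l : ℂ, l = t.ev (fun _ => (1 : ℂ)) := ⟨_, rfl⟩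
    refine ⟨η / (‖l‖ ^ 2 + C ^ 2 + 1), by positivity, ?_⟩
    intro A B _ _ _ _ _ _ _ _ α β θ p h hα hβ htr hb0 hb1 hδ x hx
    have hreal := proj_real hβ h.sa
    obtain ⟨b, hb⟩ : ∃ b : ℝ, b = (β p).re := ⟨_, rfl⟩
    rw [← hb] at hreal hb0 hb1 hδ
    show |Helper436.AD.n2s β (t.ev (fun i => theta θ p h (x i, 1))) - Helper436.AD.n2s α (t.ev x)| ≤ η
    rw [tm_theta, ← hl]
    obtain ⟨a, ha⟩ : ∃ a : A, a = t.ev x := ⟨_, rfl⟩
    have hca := c1 A α hα x hx
    rw [← ha] at hca ⊢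
    have e1 : Helper436.AD.n2s β (theta θ p h (a, l)) = b * n2 α a ^ 2 + ‖l‖ ^ 2 * (1 - b) := by
      unfold Helper436.AD.n2s
      rw [← map_star, ← map_mul]
      have e2 : star ((a, l) : A × ℂ) * (a, l) = (star a * a, star l * l) := rfl
      rw [e2, theta_trace h hβ htr, hreal]
      have e3 : star l * l = ((‖l‖ ^ 2 : ℝ) : ℂ) := by
        rw [Complex.star_def, ← Complex.normSq_eq_conj_mul_self, Complex.normSq_eq_norm_sq]
      rw [e3, Complex.add_re, Complex.re_ofReal_mul, Complex.re_ofReal_mul, ← hα.n2_sq,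
        Complex.sub_re, Complex.one_re, Complex.ofReal_re]
    rw [e1, uc_n2s hα]
    have e4 : b * n2 α a ^ 2 + ‖l‖ ^ 2 * (1 - b) - n2 α a ^ 2 =
        (1 - b) * (‖l‖ ^ 2 - n2 α a ^ 2) := by ring
    have hn0 := n2_nonneg α a
    have e5 : |‖l‖ ^ 2 - n2 α a ^ 2| ≤ ‖l‖ ^ 2 + C ^ 2 := by
      rw [abs_le]
      constructor <;> nlinarith [sq_nonneg ‖l‖]
    rw [e4, abs_mul, abs_of_nonneg (by linarith : 0 ≤ 1 - b)]
    have e6 : (0 : ℝ) < ‖l‖ ^ 2 + C ^ 2 + 1 := by positivity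
    calc (1 - b) * |‖l‖ ^ 2 - n2 α a ^ 2| ≤
        (η / (‖l‖ ^ 2 + C ^ 2 + 1)) * (‖l‖ ^ 2 + C ^ 2 + 1) := by
          refine mul_le_mul hδ (by linarith) (abs_nonneg _) (by positivity)
      _ = η := by field_simp
  | trs t =>
    obtain ⟨C, hC, c1⟩ := uc_n2 t
    obtain ⟨l, hl⟩ : ∃ l : ℂ, l = t.ev (fun _ => (1 : ℂ)) := ⟨_, rfl⟩
    refine ⟨η / (2 * (‖l‖ + C) ^ 2 + 1), by positivity, ?_⟩
    intro A B _ _ _ _ _ _ _ _ α β θ p h hα hβ htr hb0 hb1 hδ x hx
    have hreal := proj_real hβ h.sa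
    obtain ⟨b, hb⟩ : ∃ b : ℝ, b = (β p).re := ⟨_, rfl⟩
    rw [← hb] at hreal hb0 hb1 hδ
    show |‖β (t.ev (fun i => theta θ p h (x i, 1)))‖ ^ 2 - ‖α (t.ev x)‖ ^ 2| ≤ η
    rw [tm_theta, ← hl, theta_trace h hβ htr, hreal]
    obtain ⟨a, ha⟩ : ∃ a : A, a = t.ev x := ⟨_, rfl⟩
    have hca := (uc_tr hα _).trans (c1 A α hα x hx)
    rw [← ha] at hca ⊢
    obtain ⟨z, hz⟩ : ∃ z : ℂ, z = α a := ⟨_, rfl⟩
    rw [← hz] at hca ⊢
    have hb' : ‖(b : ℂ)‖ = b := by rw [Complex.norm_real, Real.norm_eq_abs, abs_of_nonneg hb0]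
    have hb'' : ‖(1 - (b : ℂ))‖ = 1 - b := by
      rw [← Complex.ofReal_one, ← Complex.ofReal_sub, Complex.norm_real, Real.norm_eq_abs,
        abs_of_nonneg (by linarith)]
    have e1 : ‖(b : ℂ) * z + l * (1 - b)‖ ≤ ‖l‖ + C := by
      refine (norm_add_le _ _).trans ?_
      rw [norm_mul, norm_mul, hb', hb'']
      nlinarith [norm_nonneg z, norm_nonneg l]
    have e2 : |‖(b : ℂ) * z + l * (1 - b)‖ - ‖z‖| ≤ (1 - b) * (‖l‖ + C) := by
      refine (abs_norm_sub_norm_le _ _).trans ?_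
      have e3 : (b : ℂ) * z + l * (1 - b) - z = (1 - (b : ℂ)) * (l - z) := by ring
      rw [e3, norm_mul, hb'']
      refine mul_le_mul_of_nonneg_left ?_ (by linarith)
      exact (norm_sub_le _ _).trans (by linarith)
    have e4 := uc_sq _ _ (‖l‖ + C) _ (norm_nonneg _) (norm_nonneg _) e1
      (by linarith [norm_nonneg l]) e2
    refine e4.trans ?_
    have e6 : (0 : ℝ) < 2 * (‖l‖ + C) ^ 2 + 1 := by positivity
    calc 2 * (‖l‖ + C) * ((1 - b) * (‖l‖ + C)) = (1 - b) * (2 * (‖l‖ + C) ^ 2) := by ring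
      _ ≤ (η / (2 * (‖l‖ + C) ^ 2 + 1)) * (2 * (‖l‖ + C) ^ 2 + 1) := by
          refine mul_le_mul hδ (by linarith) (by positivity) (by positivity)
      _ = η := by field_simp
  | op G hG f g ihf ihg =>
    obtain ⟨B1, hB1, b1⟩ := (uc_main f).1
    obtain ⟨B2, hB2, b2⟩ := (uc_main g).1
    have hK : IsCompact (Set.Icc (-B1) B1 ×ˢ Set.Icc (-B2) B2) :=
      isCompact_Icc.prod isCompact_Icc
    have hmem : ∀ (A : Type) [Ring A] [StarRing A] [Algebra ℂ A] [StarModule ℂ A]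
        (τ : A →ₗ[ℂ] ℂ), TrAlg τ → ∀ x : ι → A, (∀ i, x i ∈ unitary A) →
        (f.ev τ x, g.ev τ x) ∈ Set.Icc (-B1) B1 ×ˢ Set.Icc (-B2) B2 := by
      intro A _ _ _ _ τ h x hx
      exact ⟨abs_le.1 (b1 A τ h x hx), abs_le.1 (b2 A τ h x hx)⟩
    have huc := hK.uniformContinuousOn_of_continuous hG.continuousOn
    rw [Metric.uniformContinuousOn_iff] at huc
    obtain ⟨e, he, huc'⟩ := huc η hη
    obtain ⟨δ, hδ, e1⟩ := ihf (e / 2) (by positivity)
    obtain ⟨δ', hδ', e2⟩ := ihg (e / 2) (by positivity)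
    refine ⟨min δ δ', lt_min hδ hδ', ?_⟩
    intro A B _ _ _ _ _ _ _ _ α β θ p h hα hβ htr hb0 hb1 hd x hx
    have a1 := e1 A B α β θ p h hα hβ htr hb0 hb1 (hd.trans (min_le_left _ _)) x hx
    have a2 := e2 A B α β θ p h hα hβ htr hb0 hb1 (hd.trans (min_le_right _ _)) x hx
    have a3 := huc' _ (hmem B β hβ _ (fun i => theta_unitary h (hx i))) _ (hmem A α hα x hx) (by
      rw [Prod.dist_eq, max_lt_iff, Real.dist_eq, Real.dist_eq]
      constructor
      · exact lt_of_le_of_lt a1 (by linarith)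
      · exact lt_of_le_of_lt a2 (by linarith))
    rw [Real.dist_eq] at a3
    exact a3.le

end Pool.Agent.KS6_75.FU
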