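import Mathlib
import Pool.Agent.KS6_75.FU.G3

set_option autoImplicit false
set_option linter.unusedSectionVars false

open scoped InnerProductSpace Topology BoundedContinuousFunction ComplexOrder
open Filter

namespace Pool.Agent.KS6_75.FU

open Pool.Agent.Helper278 Pool.Agent.Helper278.CE Pool.Agent.Helper436.SM Pool.Agent.Helper436.SN
open Pool.Agent.Helper436.AD

section basic

variable {A B : Type} [Ring A] [StarRing A] [Algebra ℂ A] [Ring B] [StarRing B] [Algebra ℂ B]
variable [StarModule ℂ A] [StarModule ℂ B] {α : A →ₗ[ℂ] ℂ} {β : B →ₗ[ℂ] ℂ}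
variable {θ : A →⋆ₙₐ[ℂ] B} {p : B}

theorem n2_proj_mul_le (hβ : TrAlg β) {q : B} (hq : star q = q) (hqq : q * q = q) (y : B) :
    n2 β (q * y) ≤ n2 β y := by
  refine (pow_le_pow_iff_left₀ (n2_nonneg _ _) (n2_nonneg _ _) two_ne_zero).1 ?_
  rw [hβ.n2_sq, hβ.n2_sq]
  have h1 := hβ.re_nonneg ((1 - q) * y)
  have e1 : star ((1 - q) * y) * ((1 - q) * y) = star y * y - star (q * y) * (q * y) := by
    rw [star_mul, star_mul, star_sub, star_one, hq]
    have e2 : star y * (1 - q) * ((1 - q) * y) = star y * ((1 - q) * (1 - q)) * y := by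
      noncomm_ring
    have e3 : (1 - q) * (1 - q) = 1 - q := by
      rw [mul_sub, mul_one, sub_mul, one_mul, hqq]; abel
    have e4 : star y * q * (q * y) = star y * (q * q) * y := by noncomm_ring
    rw [e2, e3, e4, hqq]
    noncomm_ring
  rw [e1, map_sub, Complex.sub_re] at h1
  linarith

theorem n2_mul_proj_le (hβ : TrAlg β) {q : B} (hq : star q = q) (hqq : q * q = q) (y : B) :
    n2 β (y * q) ≤ n2 β y := by
  rw [← hβ.n2_star (y * q), ← hβ.n2_star y, star_mul, hq]
  exact n2_proj_mul_le hβ hq hqq _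

theorem n2_compl (hβ : TrAlg β) {q : B} (hq : star q = q) (hqq : q * q = q) :
    n2 β (1 - q) ^ 2 = 1 - (β q).re := by
  rw [hβ.n2_sq, star_sub, star_one, hq]
  have e3 : (1 - q) * (1 - q) = 1 - q := by
    rw [mul_sub, mul_one, sub_mul, one_mul, hqq]; abel
  rw [e3, map_sub, hβ.one, Complex.sub_re, Complex.one_re]

theorem proj_re (hβ : TrAlg β) {q : B} (hq : star q = q) (hqq : q * q = q) :
    0 ≤ (β q).re ∧ (β q).re ≤ 1 := by
  constructor
  · have := hβ.re_nonneg q
    rwa [hq, hqq] at this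
  · have := n2_compl hβ hq hqq
    have h2 := sq_nonneg (n2 β (1 - q))
    linarith

/-- unitaries are near unitaries of a large corner -/
theorem near_cor (h : IsCor θ p) (hα : Nice α) (hβ : TrAlg β) (htr : ∀ x, β (θ x) = β p * α x)
    (hb : 1 / 4 ≤ (β p).re) (W : B) (hW : W ∈ unitary B) :
    ∃ v ∈ unitary A, n2 β (W - theta θ p h (v, 1)) ≤
      3 * n2 β (1 - p) + Real.sqrt (2 * n2 β (1 - p)) := by
  have hA := hα.tr
  obtain ⟨s, hs⟩ : ∃ s : ℝ, s = n2 β (1 - p) := ⟨_, rfl⟩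
  have hs0 : 0 ≤ s := by rw [hs]; exact n2_nonneg _ _
  rw [← hs]
  have hreal := proj_real hβ h.sa
  obtain ⟨b, hbb⟩ : ∃ b : ℝ, b = (β p).re := ⟨_, rfl⟩
  have hb1 : b ≤ 1 := by rw [hbb]; exact (proj_re hβ h.sa h.idem).2
  rw [← hbb] at hreal hb
  obtain ⟨x, hx⟩ := h.ex (y := p * W * p) (by
    calc p * (p * W * p) * p = (p * p) * W * (p * p) := by noncomm_ring
      _ = p * W * p := by rw [h.idem])
  obtain ⟨v, hv, hvn⟩ := hα.near x
  refine ⟨v, hv, ?_⟩
  have hn : ∀ y : A, n2 β (θ y) ^ 2 = b * n2 α y ^ 2 := by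
    intro y
    rw [hβ.n2_sq, ← map_star, ← map_mul, htr, hreal, Complex.re_ofReal_mul, ← hA.n2_sq]
  -- first
  have h1 : n2 β (W - p * W * p) ≤ 2 * s := by
    have e1 : W - p * W * p = (1 - p) * W + p * (W * (1 - p)) := by noncomm_ring
    rw [e1]
    refine (hβ.n2_add_le _ _).trans ?_
    have e2 := uc_ur hβ W (1 - p) hW
    have e3 := n2_proj_mul_le hβ h.sa h.idem (W * (1 - p))
    rw [uc_ul (τ := β) W (1 - p) hW] at e3
    rw [e2, ← hs] at *
    linarith
  -- second
  have h2 : n2 α (star x * x - 1) ≤ 2 * s := by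
    have e1 : θ (star x * x - 1) = p * ((star W * ((p - 1) * W)) * p) := by
      rw [map_sub, map_mul, map_star, h.one, hx, star_mul, star_mul, h.sa]
      have e2 : p * (star W * p) * (p * W * p) = p * (star W * ((p * p) * W) * p) := by
        noncomm_ring
      rw [e2, h.idem]
      have e3 : p * (star W * ((p - 1) * W) * p) =
          p * (star W * (p * W) * p) - p * (star W * W) * p := by noncomm_ring
      rw [e3, hW.1, mul_one, h.idem]
    have e2 : n2 β (θ (star x * x - 1)) ≤ s := by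
      rw [e1]
      refine (n2_proj_mul_le hβ h.sa h.idem _).trans ?_
      refine (n2_mul_proj_le hβ h.sa h.idem _).trans ?_
      have hWs : star W ∈ unitary B := Unitary.star_mem hW
      rw [uc_ul (τ := β) _ _ hWs, uc_ur hβ W _ hW, hβ.n2_sub_comm, ← hs]
    have e3 := hn (star x * x - 1)
    have e4 : n2 β (θ (star x * x - 1)) ^ 2 ≤ s ^ 2 := pow_le_pow_left₀ (n2_nonneg _ _) e2 2
    have e5 := n2_nonneg α (star x * x - 1)
    have e6 : n2 α (star x * x - 1) ^ 2 ≤ (2 * s) ^ 2 := by nlinarith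
    exact (pow_le_pow_iff_left₀ e5 (by linarith) two_ne_zero).1 e6
  have h3 : n2 β (θ (x - v)) ≤ Real.sqrt (2 * s) := by
    refine Real.le_sqrt_of_sq_le ?_
    rw [hn]
    have := sq_nonneg (n2 α (x - v))
    nlinarith
  have e7 : W - theta θ p h (v, 1) = (W - p * W * p) + θ (x - v) - (1 - p) := by
    rw [theta_apply, map_sub, hx, one_smul]; abel
  rw [e7, sub_eq_add_neg]
  refine (hβ.n2_add_le _ _).trans ?_
  have e8 : n2 β (-(1 - p)) = s := by
    rw [hs, hβ.n2_neg]
  have e9 := hβ.n2_add_le (W - p * W * p) (θ (x - v))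
  rw [e8]
  linarith

end basic

/-- the sentence passes to a slightly larger algebra -/
theorem sat_dir1 (f : Fm Ix3) (η : ℝ) (hη : 0 < η) :
    ∃ δ : ℝ, 0 < δ ∧ ∀ (A B : Type) [Ring A] [StarRing A] [Algebra ℂ A] [StarModule ℂ A]
      [Ring B] [StarRing B] [Algebra ℂ B] [StarModule ℂ B] (α : A →ₗ[ℂ] ℂ) (β : B →ₗ[ℂ] ℂ)
      (θ : A →⋆ₙₐ[ℂ] B) (p : B), IsCor θ p → Nice α → TrAlg β → 1 - (β p).re ≤ δ →
      (∀ r, Sat f α r → Sat f β (r + η)) ∧ (∀ r, Sat f β r → Sat f α (r + η)) := by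
  obtain ⟨δ1, hδ1, c1⟩ := cut_main f (η / 2) (by positivity)
  obtain ⟨δ2, hδ2, c2⟩ := Fm.ucont f (η / 2) (by positivity)
  obtain ⟨κ, hκ⟩ : ∃ κ : ℝ, κ = min (1 / 2) (min (δ2 / 6) (δ2 ^ 2 / 8)) := ⟨_, rfl⟩
  have hκ0 : 0 < κ := by
    rw [hκ]
    refine lt_min (by norm_num) (lt_min (by positivity) (by positivity))
  have hκ1 : κ ≤ 1 / 2 := by rw [hκ]; exact min_le_left _ _
  have hκ2 : κ ≤ δ2 / 6 := by rw [hκ]; exact (min_le_right _ _).trans (min_le_left _ _)
  have hκ3 : κ ≤ δ2 ^ 2 / 8 := by rw [hκ]; exact (min_le_right _ _).trans (min_le_right _ _)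
  refine ⟨min δ1 (κ ^ 2), lt_min hδ1 (by positivity), ?_⟩
  intro A B _ _ _ _ _ _ _ _ α β θ p h hα hβ hδ
  have hd1 : 1 - (β p).re ≤ δ1 := hδ.trans (min_le_left _ _)
  have hd2 : 1 - (β p).re ≤ κ ^ 2 := hδ.trans (min_le_right _ _)
  obtain ⟨hb0, hb1⟩ := proj_re hβ h.sa h.idem
  have hb : 1 / 4 ≤ (β p).re := by nlinarith
  have htr : ∀ x, β (θ x) = β p * α x := fun x => h.trace hα hβ (by linarith) x
  have hs : n2 β (1 - p) ≤ κ := by
    refine (pow_le_pow_iff_left₀ (n2_nonneg _ _) hκ0.le two_ne_zero).1 ?_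
    rw [n2_compl hβ h.sa h.idem]
    exact hd2
  have hs0 := n2_nonneg β (1 - p)
  have hnear : ∀ W ∈ unitary B, ∃ v ∈ unitary A, n2 β (W - theta θ p h (v, 1)) ≤ δ2 := by
    intro W hW
    obtain ⟨v, hv, hvn⟩ := near_cor h hα hβ htr hb W hW
    refine ⟨v, hv, hvn.trans ?_⟩
    have h1 : Real.sqrt (2 * n2 β (1 - p)) ≤ δ2 / 2 := by
      rw [Real.sqrt_le_left (by positivity)]
      nlinarith
    linarith
  have hz : ∀ x : A, n2 β (theta θ p h (x, 1) - theta θ p h (x, 1)) ≤ δ2 := by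
    intro x
    rw [sub_self, hβ.n2_zero]
    exact hδ2.le
  constructor
  · intro r hr
    obtain ⟨P, hP, hr⟩ := hr
    refine ⟨fun i => theta θ p h (P i, 1), fun i => ⟨theta_unitary h (hP i).1, trivial⟩, ?_⟩
    intro W hW
    choose v hv hvn using fun i => hnear (W i) (hW i).1
    obtain ⟨z, hz1, hz2⟩ := hr v (fun i => ⟨hv i, trivial⟩)
    refine ⟨fun i => theta θ p h (z i, 1), fun i => ⟨theta_unitary h (hz1 i).1, trivial⟩, ?_⟩
    have hu1 : ∀ j, asg P v z j ∈ unitary A := by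
      rintro (j | j | j)
      · exact (hP j).1
      · exact hv j
      · exact (hz1 j).1
    have hu2 : ∀ j, asg (fun i => theta θ p h (P i, 1)) W (fun i => theta θ p h (z i, 1)) j ∈
        unitary B := by
      rintro (j | j | j)
      · exact theta_unitary h (hP j).1
      · exact (hW j).1
      · exact theta_unitary h (hz1 j).1
    have e1 := c1 A B α β θ p h hα.tr hβ htr hb0 hb1 hd1 (asg P v z) hu1
    have e2 := c2 B β hβ (asg (fun i => theta θ p h (P i, 1)) W (fun i => theta θ p h (z i, 1)))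
      (fun j => theta θ p h (asg P v z j, 1)) hu2 (fun j => theta_unitary h (hu1 j)) (by
        rintro (j | j | j)
        · exact hz (P j)
        · exact hvn j
        · exact hz (z j))
    rw [abs_le] at e1 e2
    linarith [e1.2, e2.2]
  · intro r hr
    obtain ⟨P, hP, hr⟩ := hr
    choose P' hP' hPn using fun i => hnear (P i) (hP i).1
    refine ⟨P', fun i => ⟨hP' i, trivial⟩, ?_⟩
    intro W hW
    obtain ⟨z, hz1, hz2⟩ := hr (fun i => theta θ p h (W i, 1))
      (fun i => ⟨theta_unitary h (hW i).1, trivial⟩)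
    choose z' hz' hzn using fun i => hnear (z i) (hz1 i).1
    refine ⟨z', fun i => ⟨hz' i, trivial⟩, ?_⟩
    have hu1 : ∀ j, asg P' W z' j ∈ unitary A := by
      rintro (j | j | j)
      · exact hP' j
      · exact (hW j).1
      · exact hz' j
    have hu2 : ∀ j, asg P (fun i => theta θ p h (W i, 1)) z j ∈ unitary B := by
      rintro (j | j | j)
      · exact (hP j).1
      · exact theta_unitary h (hW j).1
      · exact (hz1 j).1
    have e1 := c1 A B α β θ p h hα.tr hβ htr hb0 hb1 hd1 (asg P' W z') hu1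
    have e2 := c2 B β hβ (asg P (fun i => theta θ p h (W i, 1)) z)
      (fun j => theta θ p h (asg P' W z' j, 1)) hu2 (fun j => theta_unitary h (hu1 j)) (by
        rintro (j | j | j)
        · exact hPn j
        · exact hz (W j)
        · exact hzn j)
    rw [abs_le] at e1 e2
    linarith [e1.1, e2.1]

end Pool.Agent.KS6_75.FU
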