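import Mathlib
import Pool.Agent.KS6_75.FU.G4
import Pool.Agent.KS6_75.FU.F0

set_option autoImplicit false
set_option linter.unusedSectionVars false

open scoped InnerProductSpace Topology BoundedContinuousFunction ComplexOrder
open Filter

namespace Pool.Agent.KS6_75.FU

open Pool.Agent.Helper278 Pool.Agent.Helper278.CE Pool.Agent.Helper436.SM Pool.Agent.Helper436.SN
open Pool.Agent.Helper436.AD

section cor

variable {A B C : Type} [Ring A] [StarRing A] [Algebra ℂ A] [Ring B] [StarRing B] [Algebra ℂ B]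
  [Ring C] [StarRing C] [Algebra ℂ C]

theorem IsCor.comp {θ : A →⋆ₙₐ[ℂ] B} {p : B} {ψ : B →⋆ₙₐ[ℂ] C} {q : C} (h : IsCor θ p)
    (h' : IsCor ψ q) : IsCor (ψ.comp θ) (ψ p) := by
  refine ⟨?_, ?_, ?_, ?_⟩
  · rw [← map_star, h.sa]
  · rw [← map_mul, h.idem]
  · intro x y hxy
    exact h.inj (h'.inj hxy)
  · ext y
    constructor
    · rintro ⟨x, rfl⟩
      show ψ p * ψ (θ x) * ψ p = ψ (θ x)
      rw [← map_mul, ← map_mul, h.mem]
    · intro hy
      have hy' : ψ p * y * ψ p = y := hy
      obtain ⟨z, hz⟩ := h'.ex (y := y) (by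
        rw [← hy']
        calc q * (ψ p * y * ψ p) * q = (q * ψ p) * y * (ψ p * q) := by noncomm_ring
          _ = ψ p * y * ψ p := by rw [h'.ml, h'.mr])
      rw [← hz, ← map_mul, ← map_mul] at hy'
      obtain ⟨x, hx⟩ := h.ex (h'.inj hy')
      exact ⟨x, by
        show ψ (θ x) = y
        rw [hx, hz]⟩

variable (κ : Type) [Fintype κ] [DecidableEq κ]

/-- entrywise -/
noncomputable def mapN (θ : A →⋆ₙₐ[ℂ] B) : Matrix κ κ A →⋆ₙₐ[ℂ] Matrix κ κ B where
  toFun x := Matrix.of fun i j => θ (x i j)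
  map_smul' c x := by
    ext i j
    show θ (c • x i j) = c • θ (x i j)
    rw [map_smul]
  map_zero' := by
    ext i j
    show θ 0 = 0
    rw [map_zero]
  map_add' x y := by
    ext i j
    show θ (x i j + y i j) = θ (x i j) + θ (y i j)
    rw [map_add]
  map_mul' x y := by
    ext i j
    show θ ((x * y) i j) = _
    rw [Matrix.mul_apply, Matrix.mul_apply, map_sum]
    exact Finset.sum_congr rfl fun k _ => map_mul θ _ _
  map_star' x := by
    ext i j
    show θ (star (x j i)) = star (θ (x j i))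
    rw [map_star]

theorem mapN_apply (θ : A →⋆ₙₐ[ℂ] B) (x : Matrix κ κ A) (i j : κ) :
    mapN κ θ x i j = θ (x i j) := rfl

theorem IsCor.amp {θ : A →⋆ₙₐ[ℂ] B} {p : B} (h : IsCor θ p) :
    IsCor (mapN κ θ) (Matrix.diagonal fun _ => p) := by
  have hD : ∀ (y : Matrix κ κ B) (i j : κ),
      ((Matrix.diagonal fun _ => p : Matrix κ κ B) * y *
        (Matrix.diagonal fun _ => p : Matrix κ κ B)) i j = p * y i j * p := by
    intro y i j
    rw [Matrix.mul_diagonal, Matrix.diagonal_mul]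
  refine ⟨?_, ?_, ?_, ?_⟩
  · rw [Matrix.star_eq_conjTranspose, Matrix.diagonal_conjTranspose]
    congr 1
    funext i
    exact h.sa
  · rw [Matrix.diagonal_mul_diagonal]
    congr 1
    funext i
    exact h.idem
  · intro x y hxy
    ext i j
    refine h.inj ?_
    exact congrFun (congrFun hxy i) j
  · ext y
    constructor
    · rintro ⟨x, rfl⟩
      show _ * _ * _ = _
      ext i j
      rw [hD, mapN_apply, h.mem]
    · intro hy
      have hy' : (Matrix.diagonal fun _ => p) * y * (Matrix.diagonal fun _ => p) = y := hy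
      have h1 : ∀ i j, ∃ x, θ x = y i j := by
        intro i j
        refine h.ex ?_
        rw [← hD, hy']
      choose x hx using h1
      exact ⟨Matrix.of x, by
        ext i j
        exact hx i j⟩

variable (ι : Type) [Fintype ι] [DecidableEq ι]

/-- matrices over matrices -/
noncomputable def compN : Matrix κ κ (Matrix ι ι A) →⋆ₙₐ[ℂ] Matrix (κ × ι) (κ × ι) A where
  toFun x := Matrix.of fun a b => x a.1 b.1 a.2 b.2
  map_smul' c x := rfl
  map_zero' := rfl
  map_add' x y := rfl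
  map_mul' x y := by
    ext a b
    show (x * y) a.1 b.1 a.2 b.2 = _
    rw [Matrix.mul_apply, Matrix.mul_apply, Fintype.sum_prod_type, Matrix.sum_apply]
    exact Finset.sum_congr rfl fun k _ => Matrix.mul_apply
  map_star' x := rfl

theorem compN_apply (x : Matrix κ κ (Matrix ι ι A)) (a b : κ × ι) :
    compN κ ι x a b = x a.1 b.1 a.2 b.2 := rfl

theorem isCor_compN : IsCor (compN (A := A) κ ι) 1 := by
  refine ⟨star_one _, one_mul _, ?_, ?_⟩
  · intro x y hxy
    ext i j k l
    exact congrFun (congrFun hxy (i, k)) (j, l)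
  · ext y
    constructor
    · rintro ⟨x, rfl⟩
      show _ * _ * _ = _
      rw [one_mul, mul_one]
    · intro _
      exact ⟨Matrix.of fun i j => Matrix.of fun k l => y (i, k) (j, l), rfl⟩

end cor

section conj

variable {A Q : Type} [Ring A] [StarRing A] [Algebra ℂ A] [Ring Q] [StarRing Q] [Algebra ℂ Q]
variable {κ μ : Type} [Fintype κ] [DecidableEq κ] [Fintype μ] [DecidableEq μ]

/-- conjugation by a rectangular partial isometry -/
theorem exists_conj {θ : A →⋆ₙₐ[ℂ] Matrix κ κ Q} {p : Matrix κ κ Q} (h : IsCor θ p)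
    (V : Matrix μ κ Q) (hV : V.conjTranspose * V = p) (hpV : V * p = V) :
    ∃ ψ : A →⋆ₙₐ[ℂ] Matrix μ μ Q, IsCor ψ (V * V.conjTranspose) := by
  have hps : p.conjTranspose = p := h.sa
  have hpV' : p * V.conjTranspose = V.conjTranspose := by
    have := congrArg Matrix.conjTranspose hpV
    rwa [Matrix.conjTranspose_mul, hps] at this
  have hV1 : ∀ M : Matrix κ μ Q, V.conjTranspose * (V * M) = p * M := fun M => by
    rw [← Matrix.mul_assoc, hV]
  have hV2 : ∀ M : Matrix κ κ Q, V.conjTranspose * (V * M) = p * M := fun M => by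
    rw [← Matrix.mul_assoc, hV]
  refine ⟨{ toFun := fun x => V * (θ x * V.conjTranspose)
            map_smul' := ?_, map_zero' := ?_, map_add' := ?_, map_mul' := ?_, map_star' := ?_ }, ?_⟩
  · intro c x
    rw [map_smul, Matrix.smul_mul, Matrix.mul_smul]
    rfl
  · rw [map_zero, Matrix.zero_mul, Matrix.mul_zero]
  · intro x y
    rw [map_add, Matrix.add_mul, Matrix.mul_add]
  · intro x y
    rw [map_mul, Matrix.mul_assoc V, Matrix.mul_assoc (θ x) V.conjTranspose, hV1,
      ← Matrix.mul_assoc p (θ y), h.ml, Matrix.mul_assoc (θ x) (θ y)]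
  · intro x
    rw [Matrix.star_eq_conjTranspose, Matrix.conjTranspose_mul, Matrix.conjTranspose_mul,
      Matrix.conjTranspose_conjTranspose, map_star, Matrix.star_eq_conjTranspose, Matrix.mul_assoc]
  · refine ⟨?_, ?_, ?_, ?_⟩
    · rw [Matrix.star_eq_conjTranspose, Matrix.conjTranspose_mul,
        Matrix.conjTranspose_conjTranspose]
    · rw [Matrix.mul_assoc V, hV1, hpV']
    · intro x y hxy
      have hxy' : V * (θ x * V.conjTranspose) = V * (θ y * V.conjTranspose) := hxy
      have h1 : ∀ z, V.conjTranspose * (V * (θ z * V.conjTranspose)) * V = θ z := by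
        intro z
        rw [hV1, ← Matrix.mul_assoc p, h.ml, Matrix.mul_assoc, hV, h.mr]
      refine h.inj ?_
      rw [← h1 x, ← h1 y, hxy']
    · ext y
      constructor
      · rintro ⟨x, rfl⟩
        show V * V.conjTranspose * (V * (θ x * V.conjTranspose)) * (V * V.conjTranspose) =
          V * (θ x * V.conjTranspose)
        rw [Matrix.mul_assoc V, hV1, ← Matrix.mul_assoc p, h.ml, Matrix.mul_assoc V,
          Matrix.mul_assoc (θ x), hV1, hpV']
      · intro hy
        have hy' : V * V.conjTranspose * y * (V * V.conjTranspose) = y := hy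
        obtain ⟨x, hx⟩ := h.ex (y := V.conjTranspose * (y * V)) (by
          rw [← Matrix.mul_assoc p, hpV', Matrix.mul_assoc, Matrix.mul_assoc y, hpV])
        refine ⟨x, ?_⟩
        show V * (θ x * V.conjTranspose) = y
        rw [hx]
        refine Eq.trans ?_ hy'
        simp only [Matrix.mul_assoc]

/-- trace of `V V*` and `V* V` -/
theorem tr_conj {φ : Q →ₗ[ℂ] ℂ} (hφ : TrAlg φ) (V : Matrix μ κ Q) :
    ∑ i, φ ((V * V.conjTranspose) i i) = ∑ i, φ ((V.conjTranspose * V) i i) := by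
  simp only [Matrix.mul_apply, map_sum]
  rw [Finset.sum_comm]
  refine Finset.sum_congr rfl fun i _ => Finset.sum_congr rfl fun k _ => ?_
  exact hφ.comm _ _

end conj

section cmp

theorem pi_right {A : Type} [Ring A] [StarRing A] [Algebra ℂ A] {τ : A →ₗ[ℂ] ℂ} (h : TrAlg τ)
    {v p : A} (hv : star v * v = p) (hp : star p = p) (hpp : p * p = p) : v * p = v := by
  have h1 : star (v - v * p) * (v - v * p) = 0 := by
    rw [star_sub, star_mul, hp]
    have e1 : (star v - p * star v) * (v - v * p) =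
        star v * v - star v * v * p - p * (star v * v) + p * (star v * v) * p := by noncomm_ring
    rw [e1, hv, hpp, hpp]
    abel
  have h2 := h.faithful (v - v * p) (by rw [h1, map_zero])
  exact (sub_eq_zero.1 h2).symm

variable {Q : Type} [Ring Q] [StarRing Q] [Algebra ℂ Q] [StarModule ℂ Q]
variable {κ μ : Type} [Fintype κ] [DecidableEq κ] [Fintype μ] [DecidableEq μ]

theorem exists_V {φ : Q →ₗ[ℂ] ℂ} (hφ : TrAlg φ) (hN : ∀ k, 1 ≤ k → Nice (mtrG k φ))
    (p : Matrix κ κ Q) (hp : star p = p) (hpp : p * p = p)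
    (htr : (∑ i, φ (p i i)).re ≤ Fintype.card μ) :
    ∃ V : Matrix μ κ Q, V.conjTranspose * V = p ∧ V * p = V := by
  obtain ⟨K, hK⟩ : ∃ K, K = Fintype.card (μ ⊕ κ) := ⟨_, rfl⟩
  rcases Nat.eq_zero_or_pos K with h0 | h0
  · have : IsEmpty (μ ⊕ κ) := Fintype.card_eq_zero_iff.1 (by rw [← hK, h0])
    have : IsEmpty κ := ⟨fun k => IsEmpty.false (Sum.inr k : μ ⊕ κ)⟩
    refine ⟨0, ?_, ?_⟩
    · ext i
      exact isEmptyElim i
    · ext i j
      exact isEmptyElim j
  have hn := hN K h0
  obtain ⟨e⟩ : Nonempty (μ ⊕ κ ≃ Fin K) := ⟨Fintype.equivFinOfCardEq hK.symm⟩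
  obtain ⟨P0, hP0⟩ : ∃ P0 : Matrix (μ ⊕ κ) (μ ⊕ κ) Q, P0 = Matrix.fromBlocks 0 0 0 p := ⟨_, rfl⟩
  obtain ⟨R0, hR0⟩ : ∃ R0 : Matrix (μ ⊕ κ) (μ ⊕ κ) Q, R0 = Matrix.fromBlocks 1 0 0 0 := ⟨_, rfl⟩
  have hps : p.conjTranspose = p := hp
  have P1 : P0.conjTranspose = P0 := by
    rw [hP0, Matrix.fromBlocks_conjTranspose, hps]
    simp
  have P2 : P0 * P0 = P0 := by
    rw [hP0, Matrix.fromBlocks_multiply]
    simp [hpp]
  have R1 : R0.conjTranspose = R0 := by
    rw [hR0, Matrix.fromBlocks_conjTranspose]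
    simp
  have R2 : R0 * R0 = R0 := by
    rw [hR0, Matrix.fromBlocks_multiply]
    simp
  have hKpos : (0 : ℝ) < K := by exact_mod_cast h0
  have htrS : ∀ X : Matrix (μ ⊕ κ) (μ ⊕ κ) Q, mtrG K φ (X.submatrix e.symm e.symm) =
      (∑ s, φ (X s s)) / (K : ℂ) := by
    intro X
    rw [mtrG_eq]
    congr 1
    exact Equiv.sum_comp e.symm (fun s => φ (X s s))
  obtain ⟨v, hv1, hv2⟩ := hn.comp (P0.submatrix e.symm e.symm) (R0.submatrix e.symm e.symm)
    (by rw [Matrix.star_eq_conjTranspose, Matrix.conjTranspose_submatrix, P1])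
    (by rw [Matrix.submatrix_mul_equiv, P2])
    (by rw [Matrix.star_eq_conjTranspose, Matrix.conjTranspose_submatrix, R1])
    (by rw [Matrix.submatrix_mul_equiv, R2])
    (by
      rw [htrS, htrS, Complex.div_natCast_re, Complex.div_natCast_re]
      refine div_le_div_of_nonneg_right ?_ hKpos.le
      rw [hP0, hR0, Fintype.sum_sum_type, Fintype.sum_sum_type]
      simp [hφ.one]
      simpa using htr)
  have hv3 := pi_right hn.tr hv1
    (by rw [Matrix.star_eq_conjTranspose, Matrix.conjTranspose_submatrix, P1])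
    (by rw [Matrix.submatrix_mul_equiv, P2])
  obtain ⟨w, hw⟩ : ∃ w : Matrix (μ ⊕ κ) (μ ⊕ κ) Q, w = v.submatrix e e := ⟨_, rfl⟩
  have hss : ∀ X : Matrix (μ ⊕ κ) (μ ⊕ κ) Q,
      (X.submatrix e.symm e.symm).submatrix e e = X := by
    intro X
    ext i j
    simp
  have hw1 : w.conjTranspose * w = P0 := by
    rw [hw, Matrix.conjTranspose_submatrix, Matrix.submatrix_mul_equiv,
      ← Matrix.star_eq_conjTranspose, hv1, hss]
  have hw2 : R0 * w = w := by
    rw [hw]
    nth_rewrite 1 [← hss R0]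
    rw [Matrix.submatrix_mul_equiv, hv2]
  have hw3 : w * P0 = w := by
    rw [hw]
    nth_rewrite 1 [← hss P0]
    rw [Matrix.submatrix_mul_equiv, hv3]
  obtain ⟨a, b, c, d, hw4⟩ : ∃ a b c d, w = Matrix.fromBlocks a b c d :=
    ⟨_, _, _, _, (Matrix.fromBlocks_toBlocks w).symm⟩
  rw [hw4] at hw1 hw2 hw3
  rw [hR0, Matrix.fromBlocks_multiply] at hw2
  rw [hP0, Matrix.fromBlocks_multiply] at hw3
  rw [hP0, Matrix.fromBlocks_conjTranspose, Matrix.fromBlocks_multiply] at hw1
  rw [Matrix.fromBlocks_inj] at hw1 hw2 hw3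
  have hd : d = 0 := by simpa using hw2.2.2.2.symm
  refine ⟨b, ?_, ?_⟩
  · have := hw1.2.2.2
    rw [hd] at this
    simpa using this
  · have := hw3.2.1
    simpa using this

end cmp

end Pool.Agent.KS6_75.FU
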