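import Mathlib
import Pool.Agent.KS6_75.FU.F1

set_option autoImplicit false
set_option linter.unusedSectionVars false

namespace Pool.Agent.KS6_75.FU

theorem zpow_close {d e : ℤ} {T : ℝ} (h1 : 12 / 13 * (2 : ℝ) ^ d ≤ T)
    (h2 : T ≤ 13 / 12 * (2 : ℝ) ^ e) : d ≤ e := by
  by_contra hcon
  have h3 : e + 1 ≤ d := by omega
  have h4 : (2 : ℝ) ^ (e + 1) ≤ (2 : ℝ) ^ d := zpow_le_zpow_right₀ (by norm_num) h3
  rw [zpow_add₀ (by norm_num), zpow_one] at h4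
  have h5 : (0 : ℝ) < (2 : ℝ) ^ e := by positivity
  nlinarith

/-- a number all of whose large powers are near powers of two is a power of two -/
theorem nt_powers (T : ℝ) (hT : 1 < T) (hne : ∀ k : ℤ, T ≠ (2 : ℝ) ^ k) (J : ℕ) :
    ∃ j, J ≤ j ∧ ∀ k : ℤ, ¬ (24 / 25 * (2 : ℝ) ^ k ≤ T ^ j ∧ T ^ j ≤ 26 / 25 * (2 : ℝ) ^ k) := by
  by_contra hcon
  push Not at hcon
  have hcon' : ∀ i : ℕ, ∃ k : ℤ, 24 / 25 * (2 : ℝ) ^ k ≤ T ^ (J + i) ∧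
      T ^ (J + i) ≤ 26 / 25 * (2 : ℝ) ^ k := fun i => hcon (J + i) (by omega)
  choose K hK1 hK2 using hcon'
  have h2pos : ∀ k : ℤ, (0 : ℝ) < (2 : ℝ) ^ k := fun k => by positivity
  have hd1 : ∀ i, 12 / 13 * (2 : ℝ) ^ (K (i + 1) - K i) ≤ T := by
    intro i
    have a1 := hK1 (i + 1)
    have a2 := hK2 i
    rw [← add_assoc, pow_succ] at a1
    rw [zpow_sub₀ (by norm_num)]
    rw [← mul_div_assoc, div_le_iff₀ (h2pos _)]
    have a3 : T ^ (J + i) * T ≤ 26 / 25 * (2 : ℝ) ^ (K i) * T :=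
      mul_le_mul_of_nonneg_right a2 (by linarith)
    linarith
  have hd2 : ∀ i, T ≤ 13 / 12 * (2 : ℝ) ^ (K (i + 1) - K i) := by
    intro i
    have a1 := hK2 (i + 1)
    have a2 := hK1 i
    rw [← add_assoc, pow_succ] at a1
    rw [zpow_sub₀ (by norm_num)]
    rw [← mul_div_assoc, le_div_iff₀ (h2pos _)]
    have a3 : 24 / 25 * (2 : ℝ) ^ (K i) * T ≤ T ^ (J + i) * T :=
      mul_le_mul_of_nonneg_right a2 (by linarith)
    linarith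
  obtain ⟨d, hd⟩ : ∃ d, d = K 1 - K 0 := ⟨_, rfl⟩
  have hdi : ∀ i, K (i + 1) - K i = d := by
    intro i
    rw [hd]
    exact le_antisymm (zpow_close (hd1 i) (hd2 0)) (zpow_close (hd1 0) (hd2 i))
  have hKi : ∀ i : ℕ, (2 : ℝ) ^ (K i) = (2 : ℝ) ^ (K 0) * ((2 : ℝ) ^ d) ^ i := by
    intro i
    induction i with
    | zero => simp
    | succ i ih =>
      have : K (i + 1) = K i + d := by rw [← hdi i]; ring
      rw [this, zpow_add₀ (by norm_num), ih, pow_succ]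
      ring
  have hdp := h2pos d
  obtain ⟨ρ, hρ⟩ : ∃ ρ : ℝ, ρ = T / (2 : ℝ) ^ d := ⟨_, rfl⟩
  have hTρ : T = ρ * (2 : ℝ) ^ d := by rw [hρ]; field_simp
  have hρ0 : 0 < ρ := by rw [hρ]; positivity
  have hTJ : 0 < T ^ J := by positivity
  have hpow : ∀ i, T ^ (J + i) = T ^ J * (ρ ^ i * ((2 : ℝ) ^ d) ^ i) := by
    intro i
    rw [pow_add]
    congr 1
    rw [← mul_pow, ← hTρ]
  have hlo : ∀ i, 24 / 25 * (2 : ℝ) ^ (K 0) ≤ T ^ J * ρ ^ i := by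
    intro i
    have a1 := hK1 i
    rw [hKi, hpow] at a1
    have a2 : 0 < ((2 : ℝ) ^ d) ^ i := by positivity
    have a3 : (24 / 25 * (2 : ℝ) ^ (K 0)) * ((2 : ℝ) ^ d) ^ i ≤ (T ^ J * ρ ^ i) * ((2 : ℝ) ^ d) ^ i := by
      calc (24 / 25 * (2 : ℝ) ^ (K 0)) * ((2 : ℝ) ^ d) ^ i =
          24 / 25 * ((2 : ℝ) ^ (K 0) * ((2 : ℝ) ^ d) ^ i) := by ring
        _ ≤ _ := a1
        _ = _ := by ring
    exact le_of_mul_le_mul_right a3 a2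
  have hhi : ∀ i, T ^ J * ρ ^ i ≤ 26 / 25 * (2 : ℝ) ^ (K 0) := by
    intro i
    have a1 := hK2 i
    rw [hKi, hpow] at a1
    have a2 : 0 < ((2 : ℝ) ^ d) ^ i := by positivity
    have a3 : (T ^ J * ρ ^ i) * ((2 : ℝ) ^ d) ^ i ≤ (26 / 25 * (2 : ℝ) ^ (K 0)) * ((2 : ℝ) ^ d) ^ i := by
      calc (T ^ J * ρ ^ i) * ((2 : ℝ) ^ d) ^ i = T ^ J * (ρ ^ i * ((2 : ℝ) ^ d) ^ i) := by ring
        _ ≤ _ := a1
        _ = _ := by ring
    exact le_of_mul_le_mul_right a3 a2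
  have h20 := h2pos (K 0)
  rcases lt_trichotomy ρ 1 with h | h | h
  · obtain ⟨n, hn⟩ := exists_pow_lt_of_lt_one (show 0 < 24 / 25 * (2 : ℝ) ^ (K 0) / T ^ J by positivity) h
    rw [lt_div_iff₀ hTJ] at hn
    have := hlo n
    linarith
  · apply hne d
    rw [hTρ, h, one_mul]
  · obtain ⟨n, hn⟩ := pow_unbounded_of_one_lt (26 / 25 * (2 : ℝ) ^ (K 0) / T ^ J) h
    rw [div_lt_iff₀ hTJ] at hn
    have := hhi n
    linarith

/-- good dimensions near large powers -/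
theorem nt_good (T : ℝ) (hT : 1 < T) (hne : ∀ k : ℤ, T ≠ (2 : ℝ) ^ k) (M : ℝ) :
    ∃ j : ℕ, M ≤ T ^ j ∧ ∀ m : ℕ, |(m : ℝ) - T ^ j| ≤ 1 → ∀ i, Gd (m * 2 ^ i) := by
  obtain ⟨J, hJ⟩ := pow_unbounded_of_one_lt (max M 1000) hT
  obtain ⟨j, hj, hk⟩ := nt_powers T hT hne J
  have h1 : max M 1000 < T ^ j := hJ.trans_le (pow_le_pow_right₀ hT.le hj)
  refine ⟨j, (le_max_left _ _).trans h1.le, ?_⟩
  intro m hm i l hl
  have h2 : (1000 : ℝ) < T ^ j := (le_max_right _ _).trans_lt h1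
  obtain ⟨hl1, hl2⟩ := hl
  rw [abs_le] at hm
  push_cast at hl1 hl2
  apply hk ((l : ℤ) - (i : ℤ))
  have h2i : (0 : ℝ) < 2 ^ i := by positivity
  rw [zpow_sub₀ (by norm_num), zpow_natCast, zpow_natCast]
  have e1 : 98 / 100 * (m : ℝ) ≤ 2 ^ l / 2 ^ i := by
    rw [le_div_iff₀ h2i]; linarith
  have e2 : (2 : ℝ) ^ l / 2 ^ i ≤ 101 / 100 * (m : ℝ) := by
    rw [div_le_iff₀ h2i]; linarith
  constructor
  · linarith
  · linarith

end Pool.Agent.KS6_75.FU
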