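import Mathlib
import Pool.Agent.KS6_75.FU.G5
import Pool.Agent.KS6_75.FU.G6

set_option autoImplicit false
set_option linter.unusedSectionVars false

open scoped InnerProductSpace Topology BoundedContinuousFunction ComplexOrder
open Filter

namespace Pool.Agent.KS6_75.FU

open Pool.Agent.Helper278 Pool.Agent.Helper278.CE Pool.Agent.Helper436.SM Pool.Agent.Helper436.SN
open Pool.Agent.Helper436.AD

variable {Q : Type} [Ring Q] [StarRing Q] [Algebra ℂ Q] [StarModule ℂ Q] {φ : Q →ₗ[ℂ] ℂ}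

/-- `Q` is isomorphic to a corner of trace `t` -/
def HasCor (φ : Q →ₗ[ℂ] ℂ) (t : ℝ) : Prop :=
  ∃ (ι : Type) (_ : Fintype ι) (_ : DecidableEq ι) (θ : Q →⋆ₙₐ[ℂ] Matrix ι ι Q)
    (p : Matrix ι ι Q), IsCor θ p ∧ ∑ i, φ (p i i) = (t : ℂ)

theorem cor_scale (hφ : Nice φ) {n : ℕ} {θ : Q →⋆ₙₐ[ℂ] Matrix (Fin n) (Fin n) Q}
    {p : Matrix (Fin n) (Fin n) Q} (h : IsCor θ p) {t : ℝ} (ht : 0 < t)
    (hp : ∑ i, φ (p i i) = (t : ℂ)) (x : Q) : ∑ i, φ (θ x i i) = t * φ x := by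
  have hn : n ≠ 0 := by
    rintro rfl
    rw [Fintype.sum_empty] at hp
    have : t = 0 := by exact_mod_cast hp.symm
    linarith
  have : NeZero n := ⟨hn⟩
  have hn0 : (0 : ℝ) < n := by positivity
  have hnc : (n : ℂ) ≠ 0 := by exact_mod_cast hn
  have hβ := mtrG_trAlg (m := n) hφ.tr
  have h1 : mtrG n φ p = ((t / n : ℝ) : ℂ) := by
    rw [mtrG_eq, hp]
    push_cast
    rfl
  have h2 := h.trace hφ hβ (by rw [h1, Complex.ofReal_re]; positivity) x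
  rw [h1, mtrG_eq] at h2
  push_cast at h2
  field_simp at h2
  exact h2

theorem HasCor.step (hφ : Nice φ) {n : ℕ} {θ : Q →⋆ₙₐ[ℂ] Matrix (Fin n) (Fin n) Q}
    {p : Matrix (Fin n) (Fin n) Q} (h : IsCor θ p) {t : ℝ} (ht : 0 < t)
    (hp : ∑ i, φ (p i i) = (t : ℂ)) {s : ℝ} (hs : HasCor φ s) : HasCor φ (s * t) := by
  obtain ⟨ι, _, _, ψ, q, hψ, hq⟩ := hs
  refine ⟨ι × Fin n, inferInstance, inferInstance,
    (compN ι (Fin n)).comp ((mapN ι θ).comp ψ), compN ι (Fin n) (mapN ι θ q), ?_, ?_⟩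
  · exact (hψ.comp (h.amp ι)).comp (isCor_compN ι (Fin n))
  · rw [Fintype.sum_prod_type]
    have h1 : ∀ i : ι, ∑ k : Fin n, φ (compN ι (Fin n) (mapN ι θ q) (i, k) (i, k)) =
        t * φ (q i i) := by
      intro i
      rw [← cor_scale hφ h ht hp (q i i)]
      rfl
    rw [Finset.sum_congr rfl fun i _ => h1 i, ← Finset.mul_sum, hq]
    push_cast
    ring

theorem HasCor.zero_pow (hφ : Nice φ) : HasCor φ 1 := by
  refine ⟨Fin 1, inferInstance, inferInstance,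
    { toFun := fun x => Matrix.diagonal fun _ => x
      map_smul' := ?_, map_zero' := ?_, map_add' := ?_, map_mul' := ?_, map_star' := ?_ }, 1, ?_, ?_⟩
  · intro c x
    rw [← Matrix.diagonal_smul]
    rfl
  · exact Matrix.diagonal_zero
  · intro x y
    rw [Matrix.diagonal_add]
  · intro x y
    rw [Matrix.diagonal_mul_diagonal]
  · intro x
    rw [Matrix.star_eq_conjTranspose, Matrix.diagonal_conjTranspose]
    rfl
  · refine ⟨star_one _, one_mul _, ?_, ?_⟩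
    · intro x y hxy
      have h1 : (Matrix.diagonal fun _ : Fin 1 => x) = Matrix.diagonal fun _ : Fin 1 => y := hxy
      have h2 := congrFun (congrFun h1 0) 0
      rwa [Matrix.diagonal_apply_eq, Matrix.diagonal_apply_eq] at h2
    · ext y
      constructor
      · rintro ⟨x, rfl⟩
        show _ * _ * _ = _
        rw [one_mul, mul_one]
      · intro _
        refine ⟨y 0 0, ?_⟩
        show (Matrix.diagonal fun _ : Fin 1 => y 0 0) = y
        ext i j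
        have hi : i = 0 := Subsingleton.elim _ _
        have hj : j = 0 := Subsingleton.elim _ _
        subst hi hj
        rw [Matrix.diagonal_apply_eq]
  · rw [Fin.sum_univ_one, Matrix.one_apply_eq, hφ.tr.one]
    simp

theorem HasCor.pow (hφ : Nice φ) {n : ℕ} {θ : Q →⋆ₙₐ[ℂ] Matrix (Fin n) (Fin n) Q}
    {p : Matrix (Fin n) (Fin n) Q} (h : IsCor θ p) {t : ℝ} (ht : 0 < t)
    (hp : ∑ i, φ (p i i) = (t : ℂ)) (j : ℕ) : HasCor φ (t ^ j) := by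
  induction j with
  | zero => rw [pow_zero]; exact HasCor.zero_pow hφ
  | succ j ih => rw [pow_succ]; exact HasCor.step hφ h ht hp ih

theorem red_gt (hφ : Nice φ) (hN : ∀ k, 1 ≤ k → Nice (mtrG k φ)) {s : ℝ} (hs : HasCor φ s)
    (m : ℕ) (hm : s ≤ m) :
    ∃ (ψ : Q →⋆ₙₐ[ℂ] Matrix (Fin m) (Fin m) Q) (f : Matrix (Fin m) (Fin m) Q), IsCor ψ f ∧
      mtrG m φ f = ((s / m : ℝ) : ℂ) := by
  obtain ⟨ι, _, _, θ, p, h, hp⟩ := hs
  obtain ⟨V, hV1, hV2⟩ := exists_V (μ := Fin m) hφ.tr hN p h.sa h.idem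
    (by rw [hp, Complex.ofReal_re, Fintype.card_fin]; exact hm)
  obtain ⟨ψ, hψ⟩ := exists_conj h V hV1 hV2
  refine ⟨ψ, _, hψ, ?_⟩
  rw [mtrG_eq, tr_conj hφ.tr, hV1, hp]
  push_cast
  rfl

theorem red_lt (hφ : Nice φ) (hN : ∀ k, 1 ≤ k → Nice (mtrG k φ)) {s : ℝ} (hs : HasCor φ s)
    (m : ℕ) (hm : m * s ≤ 1) :
    ∃ (ψ : Matrix (Fin m) (Fin m) Q →⋆ₙₐ[ℂ] Matrix (Fin 1) (Fin 1) Q)
      (f : Matrix (Fin 1) (Fin 1) Q), IsCor ψ f ∧ mtrG 1 φ f = ((m * s : ℝ) : ℂ) := by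
  obtain ⟨ι, _, _, θ, p, h, hp⟩ := hs
  have h1 := (h.amp (Fin m)).comp (isCor_compN (Fin m) ι)
  obtain ⟨P, hP⟩ : ∃ P : Matrix (Fin m × ι) (Fin m × ι) Q,
    P = compN (Fin m) ι (Matrix.diagonal fun _ => p) := ⟨_, rfl⟩
  rw [← hP] at h1
  have hPt : ∑ a, φ (P a a) = ((m * s : ℝ) : ℂ) := by
    rw [Fintype.sum_prod_type]
    have h2 : ∀ i : Fin m, ∑ k : ι, φ (P (i, k) (i, k)) = s := by
      intro i
      rw [← hp]
      refine Finset.sum_congr rfl fun k _ => ?_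
      rw [hP, compN_apply, Matrix.diagonal_apply_eq]
    rw [Finset.sum_congr rfl fun i _ => h2 i, Finset.sum_const, Finset.card_univ,
      Fintype.card_fin, nsmul_eq_mul]
    push_cast
    rfl
  obtain ⟨V, hV1, hV2⟩ := exists_V (μ := Fin 1) hφ.tr hN P h1.sa h1.idem
    (by rw [hPt, Complex.ofReal_re, Fintype.card_fin]; simpa using hm)
  obtain ⟨ψ, hψ⟩ := exists_conj h1 V hV1 hV2
  refine ⟨ψ, _, hψ, ?_⟩
  rw [mtrG_eq, tr_conj hφ.tr, hV1, hPt]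
  push_cast
  rw [div_one]

/-- the fundamental group -/
theorem fund_main (hφ : Nice φ) (hN : ∀ k, 1 ≤ k → Nice (mtrG k φ)) (f : Fm Ix3)
    (hsat : ∀ ε : ℝ, 0 < ε → Sat f φ ε) (hsat1 : ∀ ε : ℝ, 0 < ε → Sat f (mtrG 1 φ) ε)
    {c : ℝ} (hc : 0 < c)
    (hun : ∀ m : ℕ, 1 ≤ m → (∀ i, Gd (m * 2 ^ i)) → ¬ Sat f (mtrG m φ) c)
    {n : ℕ} {θ : Q →⋆ₙₐ[ℂ] Matrix (Fin n) (Fin n) Q}
    {p : Matrix (Fin n) (Fin n) Q} (h : IsCor θ p) {t : ℝ} (ht : 0 < t)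
    (hp : ∑ i, φ (p i i) = (t : ℂ)) : ∃ k : ℤ, t = (2 : ℝ) ^ k := by
  by_contra hcon
  push Not at hcon
  obtain ⟨δ, hδ, hdir⟩ := sat_dir1 f (c / 2) (by positivity)
  rcases lt_trichotomy t 1 with h1 | h1 | h1
  · have hT : 1 < t⁻¹ := (one_lt_inv₀ ht).2 h1
    obtain ⟨j, hj1, hj2⟩ := nt_good t⁻¹ hT (fun k hk => hcon (-k) (by
      rw [zpow_neg, ← hk, inv_inv])) (max (1 / δ) 1)
    obtain ⟨X, hX⟩ : ∃ X : ℝ, X = t⁻¹ ^ j := ⟨_, rfl⟩
    rw [← hX] at hj1 hj2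
    have hX1 : 1 ≤ X := (le_max_right _ _).trans hj1
    have hXδ : 1 / δ ≤ X := (le_max_left _ _).trans hj1
    obtain ⟨m, hm⟩ : ∃ m : ℕ, m = ⌊X⌋₊ := ⟨_, rfl⟩
    have hm1 : (m : ℝ) ≤ X := by rw [hm]; exact Nat.floor_le (by linarith)
    have hm2 : X < m + 1 := by rw [hm]; exact Nat.lt_floor_add_one X
    have hm3 : 1 ≤ m := by rw [hm]; exact Nat.le_floor (by simpa using hX1)
    have htX : t ^ j = X⁻¹ := by rw [hX, inv_pow, inv_inv]
    have hgood := hj2 m (by rw [abs_le]; constructor <;> linarith)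
    have hXpos : 0 < X := by linarith
    obtain ⟨ψ, g, hψ, hg⟩ := red_lt hφ hN (HasCor.pow hφ h ht hp j) m (by
      rw [htX, mul_inv_le_iff₀ hXpos]; linarith)
    have : NeZero m := ⟨by omega⟩
    have h2 := (hdir _ _ (mtrG m φ) (mtrG 1 φ) ψ g hψ (hN m hm3) (mtrG_trAlg hφ.tr) (by
      rw [hg, Complex.ofReal_re, htX]
      have e1 : 1 - (m : ℝ) * X⁻¹ = (X - m) * X⁻¹ := by field_simp
      rw [e1]
      have e2 : X⁻¹ ≤ δ := by
        rw [inv_le_comm₀ hXpos hδ, ← one_div]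
        exact hXδ
      have e3 : 0 ≤ X⁻¹ := by positivity
      nlinarith)).2 (c / 2) (hsat1 _ (by positivity))
    rw [add_halves] at h2
    exact hun m hm3 hgood h2
  · exact hcon 0 (by rw [h1]; simp)
  · obtain ⟨j, hj1, hj2⟩ := nt_good t h1 hcon (max (1 / δ) 1)
    obtain ⟨X, hX⟩ : ∃ X : ℝ, X = t ^ j := ⟨_, rfl⟩
    rw [← hX] at hj1 hj2
    have hX1 : 1 ≤ X := (le_max_right _ _).trans hj1
    have hXδ : 1 / δ ≤ X := (le_max_left _ _).trans hj1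
    obtain ⟨m, hm⟩ : ∃ m : ℕ, m = ⌈X⌉₊ := ⟨_, rfl⟩
    have hm1 : X ≤ m := by rw [hm]; exact Nat.le_ceil X
    have hm2 : (m : ℝ) < X + 1 := by rw [hm]; exact Nat.ceil_lt_add_one (by linarith)
    have hm3 : 1 ≤ m := by
      have : (1 : ℝ) ≤ m := hX1.trans hm1
      exact_mod_cast this
    have hgood := hj2 m (by rw [abs_le]; constructor <;> linarith)
    have hXpos : 0 < X := by linarith
    have hmpos : (0 : ℝ) < m := by linarith
    obtain ⟨ψ, g, hψ, hg⟩ := red_gt hφ hN (HasCor.pow hφ h ht hp j) m (by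
      rw [← hX]; exact hm1)
    have : NeZero m := ⟨by omega⟩
    have h2 := (hdir _ _ φ (mtrG m φ) ψ g hψ hφ (mtrG_trAlg hφ.tr) (by
      rw [hg, Complex.ofReal_re, ← hX]
      have e1 : 1 - X / (m : ℝ) = (m - X) / m := by field_simp
      rw [e1, div_le_iff₀ hmpos]
      have e2 : 1 ≤ δ * X := by
        rw [div_le_iff₀ hδ] at hXδ
        linarith
      nlinarith)).1 (c / 2) (hsat _ (by positivity))
    rw [add_halves] at h2
    exact hun m hm3 hgood h2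

end Pool.Agent.KS6_75.FU
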