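import Mathlib
import Pool.Agent.KS6_75.FU.G7
import Pool.Agent.KS6_75.FU.G2
import Pool.Graph.R_seed8.Helper278.SF.Main
import Pool.Graph.R_seed8.Helper278.RGNC

set_option autoImplicit false
set_option linter.unusedSectionVars false

open scoped InnerProductSpace Topology BoundedContinuousFunction ComplexOrder
open Filter

namespace Pool.Agent.KS6_75.FU

open Pool.Agent.Helper278 Pool.Agent.Helper278.CE Pool.Agent.Helper436.SM Pool.Agent.Helper436.SN
open Pool.Agent.Helper436.AD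

/-- The projection `p ∈ M_n(Q)` is a model of the amplification `Q^t`, which is the corner
`p M_n(Q) p`: `(Tr ⊗ φ)(p) = t`. -/
def IsAmpProj {Q : Type} [Ring Q] [StarRing Q] [Algebra ℂ Q] (φ : Q → ℂ) (t : ℝ) {n : ℕ}
    (p : Matrix (Fin n) (Fin n) Q) : Prop :=
  star p = p ∧ p * p = p ∧ ∑ i, φ (p i i) = (t : ℂ)

/-- The fundamental group of the II₁ factor `Q` with trace `φ`: the numbers `t > 0` such that `Q` is
isomorphic to a model `p M_n(Q) p` of the amplification `Q^t`, that is, there is an injective star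
homomorphism `θ : Q → M_n(Q)` with range `p M_n(Q) p`. -/
def FundGroup {Q : Type} [Ring Q] [StarRing Q] [Algebra ℂ Q] (φ : Q → ℂ) : Set ℝ :=
  {t | 0 < t ∧ ∃ (n : ℕ) (p : Matrix (Fin n) (Fin n) Q) (θ : Q →⋆ₙₐ[ℂ] Matrix (Fin n) (Fin n) Q),
    IsAmpProj φ t p ∧ Function.Injective θ ∧ Set.range θ = {y | p * y * p = y}}

/-- `Q` is `M_1(Q)` -/
noncomputable def oneIso (Q : Type) [Ring Q] [StarRing Q] [Algebra ℂ Q] :
    Q ≃⋆ₐ[ℂ] Matrix (Fin 1) (Fin 1) Q where
  toFun x := Matrix.of fun _ _ => x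
  invFun y := y 0 0
  left_inv x := rfl
  right_inv y := by
    ext i j
    have hi : i = 0 := Subsingleton.elim _ _
    have hj : j = 0 := Subsingleton.elim _ _
    subst hi hj
    rfl
  map_mul' x y := by
    ext i j
    rw [Matrix.mul_apply, Fin.sum_univ_one]
    rfl
  map_add' x y := rfl
  map_star' x := rfl
  map_smul' c x := rfl

/-- ultrapowers have projections of every trace -/
theorem exists_amp_proj {H : Type} [NormedAddCommGroup H] [InnerProductSpace ℂ H]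
    [CompleteSpace H] {N : VonNeumannAlgebra H} {τ : Elt N → ℂ} (hfac : IsIIOneFactor N τ)
    {U : Ultrafilter ℕ} {Q : Type} [Ring Q] [StarRing Q] [Algebra ℂ Q]
    {π : (ℕ → Elt N) → Q} {φ : Q → ℂ} (hπ : CE.IsTracialUltrapower τ U π φ) (t : ℝ) (ht : 0 < t) :
    ∃ (n : ℕ) (p : Matrix (Fin n) (Fin n) Q), IsAmpProj φ t p := by
  obtain ⟨_, φL, hφ, hn⟩ := nice_ultra hfac hπ
  obtain ⟨T, hT⟩ : ∃ T : TracialState N, T = mkState N τ hfac.normal hfac.trace := ⟨_, rfl⟩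
  have hTτ : ∀ x, T.τ x = τ x := fun x => by rw [hT]; rfl
  have hL : LyapProp T.τ := lyapProp T (diffuse_of_factor T hfac.center hfac.infinite)
  obtain ⟨m, hm⟩ : ∃ m : ℕ, m = ⌊t⌋₊ := ⟨_, rfl⟩
  have hm1 : (m : ℝ) ≤ t := by rw [hm]; exact Nat.floor_le ht.le
  have hm2 : t < m + 1 := by rw [hm]; exact Nat.lt_floor_add_one t
  obtain ⟨e, he, het⟩ := RG.exists_proj_trace (trAlg T) hL (t - m) (by linarith) (by linarith)
  have hb : CE.BddFam (fun _ : ℕ => e) := ⟨‖e‖, fun _ => le_rfl⟩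
  obtain ⟨q, hq⟩ : ∃ q : Q, q = π (fun _ => e) := ⟨_, rfl⟩
  have hq1 : star q = q := by
    rw [hq, ← hπ.quot.star _ hb]
    congr 1
    funext i
    exact he.isSelfAdjoint
  have hq2 : q * q = q := by
    rw [hq, ← hπ.quot.mul _ _ hb hb]
    congr 1
    funext i
    exact he.isIdempotentElem
  have hq3 : φ q = ((t - m : ℝ) : ℂ) := by
    rw [← het, hTτ, hq]
    exact tendsto_nhds_unique (hπ.trace _ hb) tendsto_const_nhds
  have h1 : φ 1 = 1 := by rw [← hφ, hn.tr.one]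
  refine ⟨m + 1, Matrix.diagonal (Fin.lastCases q fun _ => 1), ?_, ?_, ?_⟩
  · rw [Matrix.star_eq_conjTranspose, Matrix.diagonal_conjTranspose]
    congr 1
    funext i
    refine Fin.lastCases ?_ (fun j => ?_) i
    · show star (Fin.lastCases (motive := fun _ => Q) q (fun _ => 1) (Fin.last m)) = _
      rw [Fin.lastCases_last, hq1]
    · show star (Fin.lastCases (motive := fun _ => Q) q (fun _ => 1) (Fin.castSucc j)) = _
      rw [Fin.lastCases_castSucc, star_one]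
  · rw [Matrix.diagonal_mul_diagonal]
    congr 1
    funext i
    refine Fin.lastCases ?_ (fun j => ?_) i
    · rw [Fin.lastCases_last, hq2]
    · rw [Fin.lastCases_castSucc, mul_one]
  · rw [Fin.sum_univ_castSucc]
    have h2 : ∀ i : Fin m, φ (Matrix.diagonal (Fin.lastCases (motive := fun _ => Q) q fun _ => 1)
        (Fin.castSucc i) (Fin.castSucc i)) = 1 := by
      intro i
      rw [Matrix.diagonal_apply_eq, Fin.lastCases_castSucc, h1]
    rw [Finset.sum_congr rfl fun i _ => h2 i, Matrix.diagonal_apply_eq, Fin.lastCases_last, hq3]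
    simp

theorem sep_fund :
    ∃ N : TU.SepFactor, ∀ U : Ultrafilter ℕ, (∀ n, {n} ∉ U) →
      Nonempty (TU.UltraPow U N) ∧
        ∀ (Q : Type) [Ring Q] [StarRing Q] [Algebra ℂ Q] (π : (ℕ → Elt N.alg) → Q) (φ : Q → ℂ),
          CE.IsTracialUltrapower N.tr U π φ →
            (∀ t : ℝ, 0 < t → ∃ (n : ℕ) (p : Matrix (Fin n) (Fin n) Q), IsAmpProj φ t p) ∧
              ∀ t ∈ FundGroup φ, ∃ k : ℤ, t = (2 : ℝ) ^ k := by
  obtain ⟨A, _, _, _, _, φ, hB⟩ := exists_BigG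
  obtain ⟨K, _, _, _, P, τ, hfac, hsep, hsat, c, hc, hun⟩ := hullG hB
  refine ⟨⟨K, P, τ, hfac, hsep⟩, fun U hU => ⟨?_, ?_⟩⟩
  · obtain ⟨L, _, _, _, Q, π, ψ, hπ⟩ := exists_ultra_vn hfac U hU
    exact ⟨⟨L, Q, π, ψ, hπ⟩⟩
  · intro Q _ _ _ π ψ hπ
    refine ⟨fun t ht => exists_amp_proj hfac hπ t ht, ?_⟩
    rintro t ⟨ht, n, p, θ, ⟨hp1, hp2, hp3⟩, hinj, hran⟩
    obtain ⟨_, ψL, hψ, hn⟩ := nice_ultra hfac hπ
    have hψf : (ψL : Q → ℂ) = ψ := funext hψ
    have hm : ∀ m, (mtrG m ψL : Matrix (Fin m) (Fin m) Q → ℂ) = mtr m ψ := by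
      intro m
      funext x
      rw [mtrG_eq]
      unfold mtr
      simp only [hψ]
    have hs : ∀ ε : ℝ, 0 < ε → Sat (fFF (10 ^ 8)) ψL ε := by
      intro ε hε
      rw [hψf]
      exact sat_ultra hfac hπ _ (hsat ε hε)
    refine fund_main hn (fun k hk => nice_mat hfac hπ ψL hψ k hk) (fFF (10 ^ 8)) hs ?_
      (half_pos hc) ?_ (θ := θ) (p := p) ⟨hp1, hp2, hinj, hran⟩ ht ?_
    · intro ε hε
      refine Sat.iso (oneIso Q) (φ := ψL) (ψ := mtrG 1 ψL) ?_ (hs ε hε)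
      intro x
      rw [mtrG_eq, Fin.sum_univ_one]
      show ψL x / _ = ψL x
      simp
    · intro m hm1 hgood
      rw [hm]
      obtain ⟨m', rfl⟩ : ∃ m', m = m' + 1 := ⟨m - 1, by omega⟩
      exact unsat_ultra hfac hπ _ (m' + 1) hm1 (half_lt_self hc) (hun m' hgood)
    · simp only [hψ]
      exact hp3

end Pool.Agent.KS6_75.FU
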